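import Pool.Agent.Helper61.FS.Contr2

/-!
# Flag triangulations of the 2-sphere are tame
-/

open Finset

namespace Pool.Agent.Helper61.FS

open Pool.Agent.Helper51.CD Pool.Agent.Helper51.CD.Cube

variable {X : Type}

theorem isCx_cliques (G : SimpleGraph X) (A : Finset X) :
    IsCx G (cliquesIn G A : Set (Finset X)) := by
  constructor
  · intro τ hτ
    exact (mem_cliquesIn.1 (by exact_mod_cast hτ)).2
  · intro τ hτ ρ hρ
    have h := mem_cliquesIn.1 (Finset.mem_coe.1 hτ)
    exact Finset.mem_coe.2 (mem_cliquesIn.2 ⟨hρ.trans h.1, h.2.subset (by exact_mod_cast hρ)⟩)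

variable [DecidableEq X]

theorem ctrK_cliques {G : SimpleGraph X} {A : Finset X} {v w : X} (hv : v ∈ A) (hw : w ∈ A)
    (hvw : G.Adj v w) (hf : Free G A v w) :
    ctrK (cliquesIn G A : Set (Finset X)) v w =
      (cliquesIn (contr G v w) (A.erase w) : Set (Finset X)) := by
  ext τ
  simp only [ctrK, Set.mem_ofPred_eq, Finset.mem_coe, mem_cliquesIn]
  constructor
  · rintro ⟨hwτ, ⟨h1, h2⟩ | ⟨hvτ, h1, h2⟩⟩
    · refine ⟨fun x hx => mem_erase.2 ⟨fun h => hwτ (h ▸ hx), h1 hx⟩, ?_⟩
      intro x hx y hy hxy
      exact contr_of_adj (h2 hx hy hxy)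
    · constructor
      · intro x hx
        refine mem_erase.2 ⟨fun h => hwτ (h ▸ hx), ?_⟩
        by_cases hxv : x = v
        · rw [hxv]; exact hv
        · exact h1 (mem_insert_of_mem (mem_erase.2 ⟨hxv, hx⟩))
      · intro x hx y hy hxy
        have hx : x ∈ τ := by exact_mod_cast hx
        have hy : y ∈ τ := by exact_mod_cast hy
        by_cases hxv : x = v
        · subst hxv
          rw [contr_left hxy.symm]
          right
          exact h2 (by exact_mod_cast mem_insert_self _ _)
            (by exact_mod_cast mem_insert_of_mem (mem_erase.2 ⟨hxy.symm, hy⟩))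
            (fun h => hwτ (h ▸ hy))
        · by_cases hyv : y = v
          · subst hyv
            rw [contr_right hxy]
            right
            exact h2 (by exact_mod_cast mem_insert_of_mem (mem_erase.2 ⟨hxy, hx⟩))
              (by exact_mod_cast mem_insert_self _ _) (fun h => hwτ (h ▸ hx))
          · exact contr_of_adj (h2
              (by exact_mod_cast mem_insert_of_mem (mem_erase.2 ⟨hxv, hx⟩))
              (by exact_mod_cast mem_insert_of_mem (mem_erase.2 ⟨hyv, hy⟩)) hxy)
  · rintro ⟨h1, h2⟩
    have hwτ : w ∉ τ := fun h => (mem_erase.1 (h1 h)).1 rfl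
    have hτA : τ ⊆ A := fun x hx => (mem_erase.1 (h1 hx)).2
    refine ⟨hwτ, ?_⟩
    have hin : ∀ x ∈ τ, ∀ y ∈ τ, x ≠ v → y ≠ v → x ≠ y → G.Adj x y := by
      intro x hx y hy hxv hyv hxy
      exact (contr_ne hxv hyv).1 (h2 (by exact_mod_cast hx) (by exact_mod_cast hy) hxy)
    by_cases hvτ : v ∈ τ
    · have hor : ∀ x ∈ τ, x ≠ v → G.Adj v x ∨ G.Adj w x := by
        intro x hx hxv
        exact (contr_left hxv).1 (h2 (by exact_mod_cast hvτ) (by exact_mod_cast hx) hxv.symm)
      by_cases hall : ∀ x ∈ τ, x ≠ v → G.Adj v x
      · left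
        refine ⟨hτA, ?_⟩
        intro x hx y hy hxy
        have hx : x ∈ τ := by exact_mod_cast hx
        have hy : y ∈ τ := by exact_mod_cast hy
        by_cases hxv : x = v
        · subst hxv
          exact hall y hy hxy.symm
        · by_cases hyv : y = v
          · subst hyv
            exact (hall x hx hxy).symm
          · exact hin x hx y hy hxv hyv hxy
      · right
        push Not at hall
        obtain ⟨x, hx, hxv, hvx⟩ := hall
        have hwx : G.Adj w x := (hor x hx hxv).resolve_left hvx
        have hall2 : ∀ y ∈ τ, y ≠ v → G.Adj w y := by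
          intro y hy hyv
          rcases hor y hy hyv with h3 | h3
          · by_cases hxy : y = x
            · rw [hxy]; exact hwx
            · have h4 := hin y hy x hx hyv hxv hxy
              rcases hf x (hτA hx) y (hτA hy) hxv (fun h => hwτ (h ▸ hy)) h3 h4 hwx.symm with h5 | h5
              · exact absurd h5 hvx
              · exact h5.symm
          · exact h3
        refine ⟨hvτ, ?_, ?_⟩
        · intro y hy
          rw [mem_insert, mem_erase] at hy
          rcases hy with rfl | hy
          · exact hw
          · exact hτA hy.2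
        · intro y hy0 z hz0 hyz
          have hy : y = w ∨ (y ≠ v ∧ y ∈ τ) := by
            have : y ∈ insert w (τ.erase v) := by exact_mod_cast hy0
            rwa [mem_insert, mem_erase] at this
          have hz : z = w ∨ (z ≠ v ∧ z ∈ τ) := by
            have : z ∈ insert w (τ.erase v) := by exact_mod_cast hz0
            rwa [mem_insert, mem_erase] at this
          rcases hy with hy | hy
          · rcases hz with hz | hz
            · exact absurd (hy.trans hz.symm) hyz
            · rw [hy]
              exact hall2 z hz.2 hz.1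
          · rcases hz with hz | hz
            · rw [hz]
              exact (hall2 y hy.2 hy.1).symm
            · exact hin y hy.2 z hz.2 hy.1 hz.1 hyz
    · left
      refine ⟨hτA, ?_⟩
      intro x hx y hy hxy
      have hx : x ∈ τ := by exact_mod_cast hx
      have hy : y ∈ τ := by exact_mod_cast hy
      exact hin x hx y hy (fun h => hvτ (h ▸ hx)) (fun h => hvτ (h ▸ hy)) hxy

theorem lkK_cliques {G : SimpleGraph X} {A : Finset X} {v w p q : X} (hv : v ∈ A) (hw : w ∈ A)
    (hvw : G.Adj v w) (hpq : nbr G (nbr G A v) w = {p, q}) (hn : ¬ G.Adj p q) :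
    lkK (cliquesIn G A : Set (Finset X)) v w = {∅, {p}, {q}} := by
  have hp : p ∈ nbr G (nbr G A v) w := by rw [hpq]; exact mem_insert_self _ _
  have hq : q ∈ nbr G (nbr G A v) w := by rw [hpq]; exact mem_insert_of_mem (mem_singleton_self _)
  ext τ
  simp only [lkK, Set.mem_ofPred_eq, Finset.mem_coe, mem_cliquesIn, Set.mem_insert_iff,
    Set.mem_singleton_iff]
  constructor
  · rintro ⟨hvτ, hwτ, h1, h2⟩
    have hsub : ∀ x ∈ τ, x = p ∨ x = q := by
      intro x hx
      have h3 : x ∈ nbr G (nbr G A v) w := by
        refine mem_nn.2 ⟨h1 (mem_insert_of_mem (mem_insert_of_mem hx)), ?_, ?_⟩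
        · exact h2 (by exact_mod_cast mem_insert_self _ _)
            (by exact_mod_cast mem_insert_of_mem (mem_insert_of_mem hx)) (fun h => hvτ (h ▸ hx))
        · exact h2 (by exact_mod_cast mem_insert_of_mem (mem_insert_self _ _))
            (by exact_mod_cast mem_insert_of_mem (mem_insert_of_mem hx)) (fun h => hwτ (h ▸ hx))
      rw [hpq, mem_insert, mem_singleton] at h3
      exact h3
    have hadj : ∀ x ∈ τ, ∀ y ∈ τ, x ≠ y → G.Adj x y := fun x hx y hy hxy =>
      h2 (by exact_mod_cast mem_insert_of_mem (mem_insert_of_mem hx))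
        (by exact_mod_cast mem_insert_of_mem (mem_insert_of_mem hy)) hxy
    by_cases hpτ : p ∈ τ
    · right; left
      apply Finset.eq_singleton_iff_unique_mem.2
      refine ⟨hpτ, fun y hy => ?_⟩
      rcases hsub y hy with rfl | rfl
      · rfl
      · by_contra hne
        exact hn (hadj p hpτ y hy (Ne.symm hne))
    · by_cases hqτ : q ∈ τ
      · right; right
        apply Finset.eq_singleton_iff_unique_mem.2
        refine ⟨hqτ, fun y hy => ?_⟩
        rcases hsub y hy with rfl | rfl
        · exact absurd hy hpτ
        · rfl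
      · left
        rw [Finset.eq_empty_iff_forall_notMem]
        intro y hy
        rcases hsub y hy with rfl | rfl
        · exact hpτ hy
        · exact hqτ hy
  · have hvw' : ∀ r ∈ nbr G (nbr G A v) w, (v ∉ ({r} : Finset X) ∧ w ∉ ({r} : Finset X) ∧
        insert v (insert w ({r} : Finset X)) ⊆ A ∧
        G.IsClique ((insert v (insert w ({r} : Finset X)) : Finset X) : Set X)) := by
      intro r hr
      rw [mem_nn] at hr
      refine ⟨?_, ?_, ?_, ?_⟩
      · rw [mem_singleton]; exact hr.2.1.ne
      · rw [mem_singleton]; exact hr.2.2.ne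
      · intro x hx
        simp only [mem_insert, mem_singleton] at hx
        rcases hx with rfl | rfl | rfl
        · exact hv
        · exact hw
        · exact hr.1
      · intro x hx y hy hxy
        simp only [Finset.coe_insert, Finset.coe_singleton, Set.mem_insert_iff,
          Set.mem_singleton_iff] at hx hy
        rcases hx with rfl | rfl | rfl <;> rcases hy with rfl | rfl | rfl
        · exact absurd rfl hxy
        · exact hvw
        · exact hr.2.1
        · exact hvw.symm
        · exact absurd rfl hxy
        · exact hr.2.2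
        · exact hr.2.1.symm
        · exact hr.2.2.symm
        · exact absurd rfl hxy
    rintro (rfl | rfl | rfl)
    · refine ⟨by simp, by simp, ?_, ?_⟩
      · intro x hx
        simp only [insert_empty_eq, mem_insert, mem_singleton] at hx
        rcases hx with rfl | rfl
        · exact hv
        · exact hw
      · exact (hvw' p hp).2.2.2.subset (by
          intro x hx
          simp only [Finset.coe_insert, Finset.coe_singleton,
            Set.mem_insert_iff, Set.mem_singleton_iff, insert_empty_eq] at hx ⊢
          tauto)
    · exact hvw' p hp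
    · exact hvw' q hq

/-- **Every flag triangulation of the 2-sphere is tame.** -/
theorem tame_of_sph (k : ℕ) : ∀ (G : SimpleGraph X) (A : Finset X), A.card = k → Sph G A →
    TameK G (cliquesIn G A : Set (Finset X)) := by
  induction k using Nat.strong_induction_on with
  | _ k ih =>
  intro G A hk hS
  rcases exists_edge hS with ⟨v, hv, w, hwv, hnb⟩ | h
  · have hw' := mem_nbr.1 hwv
    have hw := hw'.1
    have hvw := hw'.2
    have hf := free_of_not_blocked hnb
    have hS' := sph_contr hS hv hw hvw hf
    have h1 := ih (A.erase w).card (by rw [← hk]; exact Finset.card_erase_lt_of_mem hw) _ _ rfl hS'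
    obtain ⟨p, q, hpq, hn⟩ := Finset.card_eq_two.1 (hS.two v hv w hwv)
    have hp : p ∈ nbr G (nbr G A v) w := by rw [hn]; exact mem_insert_self _ _
    have hq : q ∈ nbr G (nbr G A v) w := by rw [hn]; exact mem_insert_of_mem (mem_singleton_self _)
    have hp' := mem_nn.1 hp
    have hq' := mem_nn.1 hq
    have hpq' : ¬ G.Adj p q := fun h => noK4 hS hv hw hp'.1 hq'.1 hvw hp'.2.1 hq'.2.1 hp'.2.2
      hq'.2.2 h
    apply TameK.contract G _ v w hvw.ne (isCx_cliques G A)
    · rw [Finset.mem_coe, mem_cliquesIn]
      exact ⟨(mem_E2.1 (pair_mem_E2 hv hwv)).1, (mem_E2.1 (pair_mem_E2 hv hwv)).2.1⟩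
    · intro τ hvτ hwτ h2 h3
      rw [Finset.mem_coe, mem_cliquesIn] at h2 h3 ⊢
      constructor
      · intro x hx
        rw [mem_insert] at hx
        rcases hx with rfl | hx
        · exact hv
        · exact h3.1 hx
      · intro x hx0 y hy0 hxy
        have hx : x = v ∨ x = w ∨ x ∈ τ := by
          have : x ∈ insert v (insert w τ) := by exact_mod_cast hx0
          rwa [mem_insert, mem_insert] at this
        have hy : y = v ∨ y = w ∨ y ∈ τ := by
          have : y ∈ insert v (insert w τ) := by exact_mod_cast hy0
          rwa [mem_insert, mem_insert] at this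
        have hvx : ∀ z ∈ τ, G.Adj v z := fun z hz =>
          h2.2 (by exact_mod_cast mem_insert_self _ _) (by exact_mod_cast mem_insert_of_mem hz)
            (fun h => hvτ (h ▸ hz))
        have hwx : ∀ z ∈ τ, G.Adj w z := fun z hz =>
          h3.2 (by exact_mod_cast mem_insert_self _ _) (by exact_mod_cast mem_insert_of_mem hz)
            (fun h => hwτ (h ▸ hz))
        rcases hx with hx | hx | hx
        · rcases hy with hy | hy | hy
          · exact absurd (hx.trans hy.symm) hxy
          · rw [hx, hy]; exact hvw
          · rw [hx]; exact hvx y hy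
        · rcases hy with hy | hy | hy
          · rw [hx, hy]; exact hvw.symm
          · exact absurd (hx.trans hy.symm) hxy
          · rw [hx]; exact hwx y hy
        · rcases hy with hy | hy | hy
          · rw [hy]; exact (hvx x hx).symm
          · rw [hy]; exact (hwx x hx).symm
          · exact h2.2 (by exact_mod_cast mem_insert_of_mem hx)
              (by exact_mod_cast mem_insert_of_mem hy) hxy
    · rw [ctrK_cliques hv hw hvw hf]
      exact h1
    · rw [lkK_cliques hv hw hvw hn hpq']
      exact TameK.pair G p q hpq hpq'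
  · exact tame_of_susp h

theorem sph_tame {G : SimpleGraph X} {A : Finset X} (hS : Sph G A) :
    TameK G (cliquesIn G A : Set (Finset X)) := tame_of_sph _ G A rfl hS

end Pool.Agent.Helper61.FS
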