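import Pool.Agent.Helper61.FS.Star

/-!
# Cycles modulo two on a flag sphere are boundaries
-/

open Finset

namespace Pool.Agent.Helper61.FS

open Pool.Agent.Helper51.CD Pool.Agent.Helper51.CD.Cube

variable {X : Type} [DecidableEq X]

/-- The edges. -/
noncomputable def E2 (G : SimpleGraph X) (A : Finset X) : Finset (Finset X) :=
  (cliquesIn G A).filter (fun e => e.card = 2)

/-- The triangles. -/
noncomputable def T3 (G : SimpleGraph X) (A : Finset X) : Finset (Finset X) :=
  (cliquesIn G A).filter (fun e => e.card = 3)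

omit [DecidableEq X] in
theorem mem_E2 {G : SimpleGraph X} {A e : Finset X} :
    e ∈ E2 G A ↔ e ⊆ A ∧ G.IsClique (e : Set X) ∧ e.card = 2 := by
  simp only [E2, mem_filter, mem_cliquesIn, and_assoc]

omit [DecidableEq X] in
theorem mem_T3 {G : SimpleGraph X} {A e : Finset X} :
    e ∈ T3 G A ↔ e ⊆ A ∧ G.IsClique (e : Set X) ∧ e.card = 3 := by
  simp only [T3, mem_filter, mem_cliquesIn, and_assoc]

theorem pair_mem_E2 {G : SimpleGraph X} {A : Finset X} {v a : X} (hv : v ∈ A)
    (ha : a ∈ nbr G A v) : ({v, a} : Finset X) ∈ E2 G A := by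
  rw [mem_nbr] at ha
  rw [mem_E2]
  refine ⟨?_, ?_, Finset.card_pair ha.2.ne⟩
  · intro x hx
    rw [mem_insert, mem_singleton] at hx
    rcases hx with rfl | rfl
    · exact hv
    · exact ha.1
  · rw [Finset.coe_pair]
    intro x hx y hy hxy
    rcases hx with rfl | rfl <;> rcases hy with rfl | rfl
    · exact absurd rfl hxy
    · exact ha.2
    · exact ha.2.symm
    · exact absurd rfl hxy

theorem triple_mem_T3 {G : SimpleGraph X} {A : Finset X} {v a b : X} (hv : v ∈ A)
    (ha : a ∈ nbr G A v) (hb : b ∈ nbr G (nbr G A v) a) : ({v, a, b} : Finset X) ∈ T3 G A := by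
  rw [mem_nbr] at ha
  rw [mem_nn] at hb
  rw [mem_T3]
  refine ⟨?_, ?_, ?_⟩
  · intro x hx
    rw [mem_insert, mem_insert, mem_singleton] at hx
    rcases hx with rfl | rfl | rfl
    · exact hv
    · exact ha.1
    · exact hb.1
  · intro x hx y hy hxy
    rw [Finset.coe_insert, Finset.coe_pair] at hx hy
    rcases hx with rfl | rfl | rfl <;> rcases hy with rfl | rfl | rfl
    · exact absurd rfl hxy
    · exact ha.2
    · exact hb.2.1
    · exact ha.2.symm
    · exact absurd rfl hxy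
    · exact hb.2.2
    · exact hb.2.1.symm
    · exact hb.2.2.symm
    · exact absurd rfl hxy
  · rw [Finset.card_eq_three]
    exact ⟨v, a, b, ha.2.ne, hb.2.1.ne, hb.2.2.ne, rfl⟩

theorem exists_of_mem_E2 {G : SimpleGraph X} {A e : Finset X} (he : e ∈ E2 G A) {v : X}
    (hv : v ∈ e) : ∃ a ∈ nbr G A v, e = {v, a} := by
  rw [mem_E2] at he
  obtain ⟨h1, h2, h3⟩ := he
  have h4 : (e.erase v).card = 1 := by rw [Finset.card_erase_of_mem hv, h3]
  obtain ⟨a, ha⟩ := Finset.card_eq_one.1 h4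
  have ha' : a ∈ e.erase v := by rw [ha]; exact mem_singleton_self a
  rw [mem_erase] at ha'
  refine ⟨a, mem_nbr.2 ⟨h1 ha'.2, h2 (by exact_mod_cast hv) (by exact_mod_cast ha'.2) ha'.1.symm⟩, ?_⟩
  rw [← Finset.insert_erase hv, ha]

theorem exists_of_mem_T3 {G : SimpleGraph X} {A t : Finset X} (ht : t ∈ T3 G A) {v a : X}
    (hv : v ∈ t) (ha : a ∈ t) (hva : v ≠ a) :
    ∃ b ∈ nbr G (nbr G A v) a, t = {v, a, b} := by
  rw [mem_T3] at ht
  obtain ⟨h1, h2, h3⟩ := ht
  have ha2 : a ∈ t.erase v := mem_erase.2 ⟨hva.symm, ha⟩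
  have h4 : ((t.erase v).erase a).card = 1 := by
    rw [Finset.card_erase_of_mem ha2, Finset.card_erase_of_mem hv, h3]
  obtain ⟨b, hb⟩ := Finset.card_eq_one.1 h4
  have hb' : b ∈ (t.erase v).erase a := by rw [hb]; exact mem_singleton_self b
  rw [mem_erase, mem_erase] at hb'
  refine ⟨b, mem_nn.2 ⟨h1 hb'.2.2, h2 (by exact_mod_cast hv) (by exact_mod_cast hb'.2.2)
    hb'.2.1.symm, h2 (by exact_mod_cast ha) (by exact_mod_cast hb'.2.2) hb'.1.symm⟩, ?_⟩
  rw [← Finset.insert_erase hv, ← Finset.insert_erase ha2, hb]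

theorem sum_E2 {M : Type} [AddCommMonoid M] {G : SimpleGraph X} {A : Finset X} {v : X}
    (hv : v ∈ A) (f : Finset X → M) :
    ∑ e ∈ (E2 G A).filter (fun e => v ∈ e), f e = ∑ a ∈ nbr G A v, f {v, a} := by
  symm
  apply Finset.sum_bij (fun a _ => ({v, a} : Finset X))
  · intro a ha
    rw [mem_filter]
    exact ⟨pair_mem_E2 hv ha, mem_insert_self _ _⟩
  · intro a ha b hb hab
    have h1 : a ∈ ({v, b} : Finset X) := by
      rw [← hab]; exact mem_insert_of_mem (mem_singleton_self _)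
    rw [mem_insert, mem_singleton] at h1
    rcases h1 with h1 | h1
    · exact absurd h1.symm (mem_nbr.1 ha).2.ne
    · exact h1
  · intro e he
    rw [mem_filter] at he
    obtain ⟨a, ha, h⟩ := exists_of_mem_E2 he.1 he.2
    exact ⟨a, ha, h.symm⟩
  · intro a _
    rfl

theorem sum_T3 {M : Type} [AddCommMonoid M] {G : SimpleGraph X} {A : Finset X} {v a : X}
    (hv : v ∈ A) (ha : a ∈ nbr G A v) (f : Finset X → M) :
    ∑ t ∈ (T3 G A).filter (fun t => ({v, a} : Finset X) ⊆ t), f t =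
      ∑ b ∈ nbr G (nbr G A v) a, f {v, a, b} := by
  symm
  apply Finset.sum_bij (fun b _ => ({v, a, b} : Finset X))
  · intro b hb
    rw [mem_filter]
    refine ⟨triple_mem_T3 hv ha hb, ?_⟩
    intro x hx
    rw [mem_insert, mem_singleton] at hx
    rcases hx with rfl | rfl
    · exact mem_insert_self _ _
    · exact mem_insert_of_mem (mem_insert_self _ _)
  · intro b hb c hc hbc
    have h1 : b ∈ ({v, a, c} : Finset X) := by
      rw [← hbc]; exact mem_insert_of_mem (mem_insert_of_mem (mem_singleton_self _))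
    rw [mem_insert, mem_insert, mem_singleton] at h1
    rw [mem_nn] at hb
    rcases h1 with h1 | h1 | h1
    · exact absurd h1.symm hb.2.1.ne
    · exact absurd h1.symm hb.2.2.ne
    · exact h1
  · intro t ht
    rw [mem_filter] at ht
    have hva : v ≠ a := (mem_nbr.1 ha).2.ne
    obtain ⟨b, hb, h⟩ := exists_of_mem_T3 ht.1 (ht.2 (mem_insert_self _ _))
      (ht.2 (mem_insert_of_mem (mem_singleton_self _))) hva
    exact ⟨b, hb, h.symm⟩
  · intro b _
    rfl

theorem card_E2 {G : SimpleGraph X} {A : Finset X} :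
    2 * (E2 G A).card = ∑ v ∈ A, (nbr G A v).card := by
  have h1 : ∑ v ∈ A, (nbr G A v).card = ∑ v ∈ A, ∑ e ∈ (E2 G A).filter (fun e => v ∈ e), 1 := by
    refine Finset.sum_congr rfl fun v hv => ?_
    rw [sum_E2 hv, Finset.sum_const, smul_eq_mul, mul_one]
  rw [h1]
  simp only [Finset.sum_filter]
  rw [Finset.sum_comm]
  have h2 : ∀ e ∈ E2 G A, ∑ v ∈ A, (if v ∈ e then 1 else 0) = 2 := by
    intro e he
    rw [mem_E2] at he
    rw [← Finset.sum_filter, Finset.sum_const, smul_eq_mul, mul_one, Finset.filter_mem_eq_inter,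
      Finset.inter_eq_right.2 he.1, he.2.2]
  rw [Finset.sum_congr rfl h2, Finset.sum_const, smul_eq_mul, mul_comm]

theorem card_T3 {G : SimpleGraph X} {A : Finset X} (hS : Sph G A) :
    3 * (T3 G A).card = 2 * (E2 G A).card := by
  have h1 : ∀ e ∈ E2 G A, ∑ t ∈ T3 G A, (if e ⊆ t then 1 else 0) = 2 := by
    intro e he
    have he' := mem_E2.1 he
    have hne : e.Nonempty := by rw [← Finset.card_pos, he'.2.2]; norm_num
    obtain ⟨v, hv⟩ := hne
    obtain ⟨a, ha, rfl⟩ := exists_of_mem_E2 he hv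
    have hvA : v ∈ A := he'.1 hv
    rw [← Finset.sum_filter, sum_T3 hvA ha, Finset.sum_const, smul_eq_mul, mul_one,
      hS.two v hvA a ha]
  have h2 : ∀ t ∈ T3 G A, ∑ e ∈ E2 G A, (if e ⊆ t then 1 else 0) = 3 := by
    intro t ht
    have ht' := mem_T3.1 ht
    rw [← Finset.sum_filter, Finset.sum_const, smul_eq_mul, mul_one]
    have : (E2 G A).filter (fun e => e ⊆ t) = t.powersetCard 2 := by
      ext e
      rw [mem_filter, mem_E2, mem_powersetCard]
      constructor
      · rintro ⟨⟨_, _, h⟩, h'⟩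
        exact ⟨h', h⟩
      · rintro ⟨h, h'⟩
        exact ⟨⟨h.trans ht'.1, ht'.2.1.subset (by exact_mod_cast h), h'⟩, h⟩
    rw [this, Finset.card_powersetCard, ht'.2.2]
    rfl
  have h3 := Finset.sum_comm (s := E2 G A) (t := T3 G A)
    (f := fun e t => if e ⊆ t then 1 else 0)
  rw [Finset.sum_congr rfl h1, Finset.sum_congr rfl h2, Finset.sum_const, Finset.sum_const,
    smul_eq_mul, smul_eq_mul] at h3
  omega

/-- The boundary of functions on the edges. -/
noncomputable def d1 (G : SimpleGraph X) (A : Finset X) :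
    (E2 G A → ZMod 2) →ₗ[ZMod 2] (A → ZMod 2) :=
  LinearMap.pi fun v => ∑ e : E2 G A, if (v : X) ∈ (e : Finset X) then LinearMap.proj e else 0

/-- The boundary of functions on the triangles. -/
noncomputable def d2 (G : SimpleGraph X) (A : Finset X) :
    (T3 G A → ZMod 2) →ₗ[ZMod 2] (E2 G A → ZMod 2) :=
  LinearMap.pi fun e => ∑ t : T3 G A, if (e : Finset X) ⊆ (t : Finset X) then
    LinearMap.proj t else 0

/-- Extension by zero. -/
noncomputable def ext0 (S : Finset (Finset X)) (f : S → ZMod 2) : Finset X → ZMod 2 :=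
  fun e => if h : e ∈ S then f ⟨e, h⟩ else 0

theorem ext0_apply {S : Finset (Finset X)} (f : S → ZMod 2) (e : S) : ext0 S f e = f e := by
  rw [ext0, dif_pos e.2]

theorem d1_apply {G : SimpleGraph X} {A : Finset X} (z : E2 G A → ZMod 2) (v : A) :
    d1 G A z v = ∑ a ∈ nbr G A v, ext0 (E2 G A) z {(v : X), a} := by
  rw [← sum_E2 v.2 (ext0 (E2 G A) z), Finset.sum_filter, ← Finset.sum_coe_sort]
  simp only [d1, LinearMap.pi_apply, LinearMap.sum_apply]
  refine Finset.sum_congr rfl fun e _ => ?_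
  rw [ext0_apply]
  split_ifs <;> rfl

theorem d2_apply {G : SimpleGraph X} {A : Finset X} (T : T3 G A → ZMod 2) {v a : X} (hv : v ∈ A)
    (ha : a ∈ nbr G A v) :
    d2 G A T ⟨{v, a}, pair_mem_E2 hv ha⟩ =
      ∑ b ∈ nbr G (nbr G A v) a, ext0 (T3 G A) T {v, a, b} := by
  rw [← sum_T3 hv ha (ext0 (T3 G A) T), Finset.sum_filter, ← Finset.sum_coe_sort]
  simp only [d2, LinearMap.pi_apply, LinearMap.sum_apply]
  refine Finset.sum_congr rfl fun e _ => ?_
  rw [ext0_apply]
  split_ifs <;> rfl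

theorem range_le_ker {G : SimpleGraph X} {A : Finset X} :
    LinearMap.range (d2 G A) ≤ LinearMap.ker (d1 G A) := by
  rintro _ ⟨T, rfl⟩
  rw [LinearMap.mem_ker]
  funext v
  rw [d1_apply, Pi.zero_apply]
  have h1 : ∀ a ∈ nbr G A (v : X), ext0 (E2 G A) (d2 G A T) {(v : X), a} =
      ∑ b ∈ nbr G (nbr G A v) a, ext0 (T3 G A) T {(v : X), a, b} := by
    intro a ha
    rw [← d2_apply T v.2 ha]
    exact ext0_apply (d2 G A T) ⟨_, pair_mem_E2 v.2 ha⟩
  rw [Finset.sum_congr rfl h1, Finset.sum_sigma']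
  refine Finset.sum_involution (fun p _ => ⟨p.2, p.1⟩) ?_ ?_ (g_mem := ?_) (hg₄ := ?_)
  · rintro ⟨a, b⟩ hp
    simp only
    rw [Finset.pair_comm b a]
    exact CharTwo.add_self_eq_zero _
  · rintro ⟨a, b⟩ hp _ h
    simp only [mem_sigma, mem_nbr] at hp
    simp only [Sigma.mk.injEq, heq_eq_eq] at h
    exact hp.2.2.ne h.2
  · rintro ⟨a, b⟩ hp
    simp only [mem_sigma, mem_nbr] at hp ⊢
    exact ⟨hp.2.1, hp.1, hp.2.2.symm⟩
  · rintro ⟨a, b⟩ hp
    rfl

theorem finrank_ker_d2 {G : SimpleGraph X} {A : Finset X} (hS : Sph G A) :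
    Module.finrank (ZMod 2) (LinearMap.ker (d2 G A)) ≤ 1 := by
  have hle : LinearMap.ker (d2 G A) ≤
      Submodule.span (ZMod 2) {(fun _ => 1 : T3 G A → ZMod 2)} := by
    intro T hT
    rw [LinearMap.mem_ker] at hT
    obtain ⟨c, hc⟩ := all_const hS (ext0 (T3 G A) T) (by
      intro v hv a ha
      rw [← d2_apply T hv ha, hT]
      rfl)
    rw [Submodule.mem_span_singleton]
    refine ⟨c, ?_⟩
    funext t
    rw [Pi.smul_apply, smul_eq_mul, mul_one]
    have ht := mem_T3.1 t.2
    obtain ⟨v, a, b, hva, hvb, hab, htt⟩ := Finset.card_eq_three.1 ht.2.2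
    have hvt : v ∈ (t : Finset X) := by rw [htt]; exact mem_insert_self _ _
    have hat : a ∈ (t : Finset X) := by
      rw [htt]; exact mem_insert_of_mem (mem_insert_self _ _)
    obtain ⟨b', hb', h⟩ := exists_of_mem_T3 t.2 hvt hat hva
    have h2 := hc v (ht.1 hvt) a (mem_nbr.2 ⟨ht.1 hat, ht.2.1 (by exact_mod_cast hvt)
      (by exact_mod_cast hat) hva⟩) b' hb'
    rw [← h, ext0_apply] at h2
    exact h2.symm
  calc Module.finrank (ZMod 2) (LinearMap.ker (d2 G A))
      ≤ Module.finrank (ZMod 2) (Submodule.span (ZMod 2) {(fun _ => 1 : T3 G A → ZMod 2)}) :=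
        Submodule.finrank_mono hle
    _ ≤ 1 := by
        have := finrank_span_le_card (R := ZMod 2) ({(fun _ => 1 : T3 G A → ZMod 2)} : Set _)
        simpa using this

theorem finrank_range_d1 {G : SimpleGraph X} {A : Finset X} (hS : Sph G A) :
    A.card ≤ Module.finrank (ZMod 2) (LinearMap.range (d1 G A)) + 1 := by
  have hA : A.Nonempty := by
    rw [← Finset.card_pos]
    have := hS.deg
    omega
  obtain ⟨v0, hv0⟩ := hA
  set W : Submodule (ZMod 2) (A → ZMod 2) := LinearMap.range (d1 G A) ⊔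
    Submodule.span (ZMod 2) {(Pi.single ⟨v0, hv0⟩ 1 : A → ZMod 2)} with hW
  have hedge : ∀ v w : A, G.Adj v w →
      (Pi.single v 1 + Pi.single w 1 : A → ZMod 2) ∈ LinearMap.range (d1 G A) := by
    intro v w hvw
    have hw : (w : X) ∈ nbr G A v := mem_nbr.2 ⟨w.2, hvw⟩
    refine ⟨Pi.single ⟨{(v : X), (w : X)}, pair_mem_E2 v.2 hw⟩ 1, ?_⟩
    funext x
    simp only [d1, LinearMap.pi_apply, LinearMap.sum_apply]
    rw [Finset.sum_eq_single (⟨{(v : X), (w : X)}, pair_mem_E2 v.2 hw⟩ : E2 G A)]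
    · have hne : v ≠ w := fun h => hvw.ne (congrArg Subtype.val h)
      by_cases h1 : x = v
      · subst h1
        rw [if_pos (mem_insert_self _ _)]
        simp [Pi.single_eq_of_ne hne]
      · by_cases h2 : x = w
        · subst h2
          rw [if_pos (mem_insert_of_mem (mem_singleton_self _))]
          simp [Pi.single_eq_of_ne h1]
        · have h3 : (x : X) ∉ ({(v : X), (w : X)} : Finset X) := by
            rw [mem_insert, mem_singleton]
            rintro (h | h)
            · exact h1 (Subtype.ext h)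
            · exact h2 (Subtype.ext h)
          rw [if_neg h3]
          simp [Pi.single_eq_of_ne h1, Pi.single_eq_of_ne h2]
    · intro e _ he
      split_ifs
      · simp [Pi.single_eq_of_ne he]
      · rfl
    · intro h
      exact absurd (mem_univ _) h
  have hall : ∀ v : A, (Pi.single v 1 : A → ZMod 2) ∈ W := by
    have : DecidablePred (fun v => ∃ h : v ∈ A, (Pi.single ⟨v, h⟩ 1 : A → ZMod 2) ∈ W) :=
      Classical.decPred _
    have h1 : A.filter (fun v => ∃ h : v ∈ A, (Pi.single ⟨v, h⟩ 1 : A → ZMod 2) ∈ W) = A := by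
      apply hS.conn _ (Finset.filter_subset _ _)
      · refine ⟨v0, mem_filter.2 ⟨hv0, hv0, ?_⟩⟩
        exact (le_sup_right : _ ≤ W) (Submodule.mem_span_singleton_self _)
      · intro x hx y hy hxy
        rw [mem_filter] at hx ⊢
        obtain ⟨hxA, hxA', hxW⟩ := hx
        refine ⟨hy, hy, ?_⟩
        have h2 := (le_sup_left : _ ≤ W) (hedge ⟨x, hxA'⟩ ⟨y, hy⟩ hxy)
        have h3 := W.sub_mem h2 hxW
        rwa [add_sub_cancel_left] at h3
    intro v
    have hv : (v : X) ∈ A.filter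
        (fun v => ∃ h : v ∈ A, (Pi.single ⟨v, h⟩ 1 : A → ZMod 2) ∈ W) := by
      rw [h1]; exact v.2
    exact (mem_filter.1 hv).2.2
  have htop : W = ⊤ := by
    rw [eq_top_iff]
    intro f _
    have : f = ∑ v : A, f v • (Pi.single v 1 : A → ZMod 2) := by
      funext x
      rw [Finset.sum_apply]
      simp only [Pi.smul_apply, smul_eq_mul, Pi.single_apply, mul_ite, mul_one, mul_zero]
      rw [Finset.sum_ite_eq, if_pos (mem_univ _)]
    rw [this]
    exact W.sum_mem fun v _ => W.smul_mem _ (hall v)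
  have h1 : Module.finrank (ZMod 2) W = A.card := by
    rw [htop, finrank_top, Module.finrank_fintype_fun_eq_card, Fintype.card_coe]
  have h2 := Submodule.finrank_add_le_finrank_add_finrank (LinearMap.range (d1 G A))
    (Submodule.span (ZMod 2) {(Pi.single ⟨v0, hv0⟩ 1 : A → ZMod 2)})
  have h3 : Module.finrank (ZMod 2)
      (Submodule.span (ZMod 2) {(Pi.single ⟨v0, hv0⟩ 1 : A → ZMod 2)}) ≤ 1 := by
    have := finrank_span_le_card (R := ZMod 2) ({(Pi.single ⟨v0, hv0⟩ 1 : A → ZMod 2)} : Set _)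
    simpa using this
  rw [← hW, h1] at h2
  omega

/-- Every cycle modulo two on a flag sphere is a boundary. -/
theorem bounds {G : SimpleGraph X} {A : Finset X} (hS : Sph G A) (z : Finset X → ZMod 2)
    (hz : ∀ v ∈ A, ∑ a ∈ nbr G A v, z {v, a} = 0) :
    ∃ T : Finset X → ZMod 2, ∀ v ∈ A, ∀ a ∈ nbr G A v,
      ∑ b ∈ nbr G (nbr G A v) a, T {v, a, b} = z {v, a} := by
  have hfin1 : Module.finrank (ZMod 2) (E2 G A → ZMod 2) = (E2 G A).card := by
    rw [Module.finrank_fintype_fun_eq_card, Fintype.card_coe]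
  have hfin2 : Module.finrank (ZMod 2) (T3 G A → ZMod 2) = (T3 G A).card := by
    rw [Module.finrank_fintype_fun_eq_card, Fintype.card_coe]
  have h1 := LinearMap.finrank_range_add_finrank_ker (d1 G A)
  have h2 := LinearMap.finrank_range_add_finrank_ker (d2 G A)
  have h3 := finrank_ker_d2 hS
  have h4 := finrank_range_d1 hS
  have h5 := card_E2 (G := G) (A := A)
  have h6 := card_T3 hS
  have h7 := hS.deg
  rw [hfin1] at h1
  rw [hfin2] at h2
  have h8 : LinearMap.range (d2 G A) = LinearMap.ker (d1 G A) := by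
    apply Submodule.eq_of_le_of_finrank_le range_le_ker
    omega
  set z' : E2 G A → ZMod 2 := fun e => z e with hz'
  have hz2 : ∀ v ∈ A, ∀ a ∈ nbr G A v, ext0 (E2 G A) z' {v, a} = z {v, a} := by
    intro v hv a ha
    exact ext0_apply z' ⟨_, pair_mem_E2 hv ha⟩
  have hk : z' ∈ LinearMap.ker (d1 G A) := by
    rw [LinearMap.mem_ker]
    funext v
    rw [d1_apply, Pi.zero_apply, ← hz v v.2]
    exact Finset.sum_congr rfl fun a ha => hz2 v v.2 a ha
  rw [← h8] at hk
  obtain ⟨T, hT⟩ := hk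
  refine ⟨ext0 (T3 G A) T, fun v hv a ha => ?_⟩
  rw [← d2_apply T hv ha, hT]

end Pool.Agent.Helper61.FS
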