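import Pool.Agent.Helper61.FS.Susp

/-!
# Contraction of an edge of a flag sphere
-/

open Finset

namespace Pool.Agent.Helper61.FS

open Pool.Agent.Helper51.CD Pool.Agent.Helper51.CD.Cube

variable {X : Type}

theorem contr_ne {G : SimpleGraph X} {v w a b : X} (ha : a ≠ v) (hb : b ≠ v) :
    (contr G v w).Adj a b ↔ G.Adj a b := by
  constructor
  · rintro ⟨_, h | ⟨h, _⟩ | ⟨h, _⟩⟩
    · exact h
    · exact absurd h ha
    · exact absurd h hb
  · intro h
    exact ⟨h.ne, Or.inl h⟩

theorem contr_left {G : SimpleGraph X} {v w b : X} (hb : b ≠ v) :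
    (contr G v w).Adj v b ↔ G.Adj v b ∨ G.Adj w b := by
  constructor
  · rintro ⟨_, h | ⟨_, h⟩ | ⟨h, _⟩⟩
    · exact Or.inl h
    · exact Or.inr h
    · exact absurd h hb
  · rintro (h | h)
    · exact ⟨h.ne, Or.inl h⟩
    · exact ⟨hb.symm, Or.inr (Or.inl ⟨rfl, h⟩)⟩

theorem contr_right {G : SimpleGraph X} {v w a : X} (ha : a ≠ v) :
    (contr G v w).Adj a v ↔ G.Adj a v ∨ G.Adj a w := by
  rw [SimpleGraph.adj_comm, contr_left ha, G.adj_comm v a, G.adj_comm w a]

theorem contr_of_adj {G : SimpleGraph X} {v w a b : X} (h : G.Adj a b) :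
    (contr G v w).Adj a b := ⟨h.ne, Or.inl h⟩

variable [DecidableEq X]

/-- There is no clique with four elements. -/
theorem noK4 {G : SimpleGraph X} {A : Finset X} (hS : Sph G A) {a b c d : X} (ha : a ∈ A)
    (hb : b ∈ A) (hc : c ∈ A) (hd : d ∈ A) (hab : G.Adj a b) (hac : G.Adj a c) (had : G.Adj a d)
    (hbc : G.Adj b c) (hbd : G.Adj b d) (hcd : G.Adj c d) : False := by
  have h : ({b, c, d} : Finset X) = nbr G A a := by
    apply link_eq hS ha
    · intro r hr
      simp only [mem_insert, mem_singleton] at hr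
      rcases hr with rfl | rfl | rfl
      · exact mem_nbr.2 ⟨hb, hab⟩
      · exact mem_nbr.2 ⟨hc, hac⟩
      · exact mem_nbr.2 ⟨hd, had⟩
    · exact ⟨b, mem_insert_self _ _⟩
    · intro r hr
      simp only [mem_insert, mem_singleton] at hr
      rcases hr with rfl | rfl | rfl
      · exact ⟨c, by simp, d, by simp, hcd.ne, hbc, hbd⟩
      · exact ⟨b, by simp, d, by simp, hbd.ne, hbc.symm, hcd⟩
      · exact ⟨b, by simp, c, by simp, hbc.ne, hbd.symm, hcd.symm⟩
  have h1 := hS.big a ha
  rw [← h] at h1
  have h2 : ({b, c, d} : Finset X).card ≤ 3 := Finset.card_le_three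
  omega

/-- The projection of the contraction. -/
def ph (v w : X) (x : X) : X := if x = w then v else x

theorem ph_w (v w : X) : ph v w w = v := if_pos rfl

theorem ph_ne {v w x : X} (h : x ≠ w) : ph v w x = x := if_neg h

theorem ph_adj {G : SimpleGraph X} {v w x y : X} (h : G.Adj x y) :
    ph v w x = ph v w y ∨ (contr G v w).Adj (ph v w x) (ph v w y) := by
  by_cases hx : x = w
  · subst hx
    have hy : y ≠ x := h.ne'
    rw [ph_w, ph_ne hy]
    by_cases hyv : y = v
    · exact Or.inl hyv.symm
    · exact Or.inr ((contr_left hyv).2 (Or.inr h))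
  · rw [ph_ne hx]
    by_cases hy : y = w
    · subst hy
      rw [ph_w]
      by_cases hxv : x = v
      · exact Or.inl hxv
      · exact Or.inr ((contr_right hxv).2 (Or.inr h))
    · rw [ph_ne hy]
      exact Or.inr (contr_of_adj h)

theorem cn_image {G : SimpleGraph X} {v w : X} {C : Finset X} (h : Cn G C) :
    Cn (contr G v w) (C.image (ph v w)) := by
  intro S hS hne hcl
  have h1 : C.filter (fun x => ph v w x ∈ S) = C := by
    apply h _ (Finset.filter_subset _ _)
    · obtain ⟨s, hs⟩ := hne
      obtain ⟨x, hx, hxs⟩ := Finset.mem_image.1 (hS hs)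
      exact ⟨x, mem_filter.2 ⟨hx, hxs ▸ hs⟩⟩
    · intro x hx y hy hxy
      rw [mem_filter] at hx ⊢
      refine ⟨hy, ?_⟩
      rcases ph_adj (v := v) (w := w) hxy with h2 | h2
      · rw [← h2]; exact hx.2
      · exact hcl _ hx.2 _ (Finset.mem_image_of_mem _ hy) h2
  apply Finset.Subset.antisymm hS
  intro s hs
  obtain ⟨x, hx, rfl⟩ := Finset.mem_image.1 hs
  rw [← h1, mem_filter] at hx
  exact hx.2

/-- A cycle without one of its vertices is connected. -/
theorem cn_erase {G : SimpleGraph X} {C : Finset X} (h2 : ∀ a ∈ C, (nbr G C a).card = 2)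
    (h : Cn G C) {w : X} (hw : w ∈ C) : Cn G (C.erase w) := by
  intro S hS hne hcl
  have hwS : w ∉ S := fun h' => (mem_erase.1 (hS h')).1 rfl
  have hSC : S ⊆ C := fun x hx => (mem_erase.1 (hS hx)).2
  classical
  have h3 : ∀ x ∈ S, (nbr G S x).card + (if G.Adj x w then 1 else 0) = 2 := by
    intro x hx
    rw [← h2 x (hSC hx)]
    have h4 : nbr G C x = nbr G S x ∪ (if G.Adj x w then {w} else ∅) := by
      ext y
      rw [mem_union, mem_nbr, mem_nbr]
      constructor
      · rintro ⟨hy, hxy⟩
        by_cases hyw : y = w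
        · subst hyw
          right
          rw [if_pos hxy]
          exact mem_singleton_self _
        · exact Or.inl ⟨hcl x hx y (mem_erase.2 ⟨hyw, hy⟩) hxy, hxy⟩
      · rintro (⟨hy, hxy⟩ | hy)
        · exact ⟨hSC hy, hxy⟩
        · split_ifs at hy with h5
          · rw [mem_singleton] at hy
            subst hy
            exact ⟨hw, h5⟩
          · simp at hy
    rw [h4, Finset.card_union_of_disjoint]
    · congr 1
      split_ifs <;> simp
    · rw [Finset.disjoint_left]
      intro y hy hy'
      split_ifs at hy'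
      · rw [mem_singleton] at hy'
        subst hy'
        exact hwS (mem_nbr.1 hy).1
      · simp at hy'
  have h5 : ∑ x ∈ S, (nbr G S x).card + (nbr G S w).card = 2 * S.card := by
    have h6 : (nbr G S w).card = ∑ x ∈ S, (if G.Adj x w then 1 else 0) := by
      rw [← Finset.sum_filter, Finset.sum_const, smul_eq_mul, mul_one]
      congr 1
      ext y
      rw [mem_nbr, mem_filter, G.adj_comm w y]
    rw [h6, ← Finset.sum_add_distrib]
    rw [Finset.sum_congr rfl h3, Finset.sum_const, smul_eq_mul, mul_comm]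
  have h6 := card_E2 (G := G) (A := S)
  have hsub : nbr G S w ⊆ nbr G C w := fun y hy => by
    rw [mem_nbr] at hy ⊢
    exact ⟨hSC hy.1, hy.2⟩
  have h7 : (nbr G S w).card ≤ 2 := by
    rw [← h2 w hw]
    exact Finset.card_le_card hsub
  have h8 : (nbr G S w).card = 0 ∨ (nbr G S w).card = 2 := by omega
  rcases h8 with h8 | h8
  · exfalso
    have h9 : S = C := by
      apply h S hSC hne
      intro x hx y hy hxy
      by_cases hyw : y = w
      · subst hyw
        have : x ∈ nbr G S y := mem_nbr.2 ⟨hx, hxy.symm⟩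
        rw [Finset.card_eq_zero] at h8
        rw [h8] at this
        simp at this
      · exact hcl x hx y (mem_erase.2 ⟨hyw, hy⟩) hxy
    exact hwS (h9 ▸ hw)
  · have h9 : nbr G S w = nbr G C w := by
      apply Finset.eq_of_subset_of_card_le hsub
      rw [h8, h2 w hw]
    have h10 : insert w S = C := by
      apply h
      · intro x hx
        rw [mem_insert] at hx
        rcases hx with rfl | hx
        · exact hw
        · exact hSC hx
      · exact ⟨w, mem_insert_self _ _⟩
      · intro x hx y hy hxy
        rw [mem_insert] at hx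
        rcases hx with rfl | hx
        · have : y ∈ nbr G C x := mem_nbr.2 ⟨hy, hxy⟩
          rw [← h9] at this
          exact mem_insert_of_mem (mem_nbr.1 this).1
        · by_cases hyw : y = w
          · rw [hyw]; exact mem_insert_self _ _
          · exact mem_insert_of_mem (hcl x hx y (mem_erase.2 ⟨hyw, hy⟩) hxy)
    rw [← h10, Finset.erase_insert hwS]

end Pool.Agent.Helper61.FS
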