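import Pool.Agent.Helper61.FS.Contr

/-!
# Contraction of an edge of a flag sphere is a flag sphere
-/

open Finset

namespace Pool.Agent.Helper61.FS

open Pool.Agent.Helper51.CD Pool.Agent.Helper51.CD.Cube

variable {X : Type}

/-- No four-cycle `v y x w` without diagonals. -/
def Free (G : SimpleGraph X) (A : Finset X) (v w : X) : Prop :=
  ∀ x ∈ A, ∀ y ∈ A, x ≠ v → y ≠ w → G.Adj v y → G.Adj y x → G.Adj x w → G.Adj v x ∨ G.Adj y w

theorem free_of_not_blocked {G : SimpleGraph X} {A : Finset X} {v w : X}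
    (h : ¬ Blocked G A v w) : Free G A v w := by
  intro x hx y hy h1 h2 h3 h4 h5
  by_contra hno
  push Not at hno
  exact h ⟨x, hx, y, hy, h1, h2, h3, h4, h5, hno.1, hno.2⟩

variable [DecidableEq X]

section

variable {G : SimpleGraph X} {A : Finset X} {v w : X}

theorem nbr_contr (hv : v ∈ A) (hw : w ∈ A) (hvw : G.Adj v w) {u : X} (hu : u ≠ v) :
    nbr (contr G v w) (A.erase w) u = (nbr G A u).image (ph v w) := by
  ext y
  rw [mem_nbr, mem_image]
  constructor
  · rintro ⟨hy, huy⟩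
    rw [mem_erase] at hy
    by_cases hyv : y = v
    · subst hyv
      rw [contr_right hu] at huy
      rcases huy with h | h
      · exact ⟨y, mem_nbr.2 ⟨hv, h⟩, ph_ne hy.1⟩
      · exact ⟨w, mem_nbr.2 ⟨hw, h⟩, ph_w _ _⟩
    · rw [contr_ne hu hyv] at huy
      exact ⟨y, mem_nbr.2 ⟨hy.2, huy⟩, ph_ne hy.1⟩
  · rintro ⟨x, hx, rfl⟩
    rw [mem_nbr] at hx
    by_cases hxw : x = w
    · subst hxw
      rw [ph_w]
      exact ⟨mem_erase.2 ⟨hvw.ne, hv⟩, (contr_right hu).2 (Or.inr hx.2)⟩
    · rw [ph_ne hxw]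
      exact ⟨mem_erase.2 ⟨hxw, hx.1⟩, contr_of_adj hx.2⟩

theorem nbr_contr_v :
    nbr (contr G v w) (A.erase w) v = (nbr G A v).erase w ∪ (nbr G A w).erase v := by
  ext y
  rw [mem_nbr, mem_union, mem_erase, mem_erase, mem_erase, mem_nbr, mem_nbr]
  constructor
  · rintro ⟨⟨hyw, hy⟩, h⟩
    have hyv : y ≠ v := h.ne'
    rw [contr_left hyv] at h
    rcases h with h | h
    · exact Or.inl ⟨hyw, hy, h⟩
    · exact Or.inr ⟨hyv, hy, h⟩
  · rintro (⟨hyw, hy, h⟩ | ⟨hyv, hy, h⟩)
    · exact ⟨⟨hyw, hy⟩, contr_of_adj h⟩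
    · exact ⟨⟨h.ne', hy⟩, (contr_left hyv).2 (Or.inr h)⟩

theorem card_image_ph {C : Finset X} (h : ¬ (v ∈ C ∧ w ∈ C)) :
    (C.image (ph v w)).card = C.card := by
  apply Finset.card_image_of_injOn
  intro x hx y hy hxy
  have hx : x ∈ C := hx
  have hy : y ∈ C := hy
  have hxy : ph v w x = ph v w y := hxy
  by_cases h1 : x = w
  · by_cases h2 : y = w
    · rw [h1, h2]
    · rw [h1, ph_w, ph_ne h2] at hxy
      exact absurd ⟨hxy ▸ hy, h1 ▸ hx⟩ h
  · by_cases h2 : y = w
    · rw [h2, ph_w, ph_ne h1] at hxy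
      exact absurd ⟨hxy ▸ hx, h2 ▸ hy⟩ h
    · rwa [ph_ne h1, ph_ne h2] at hxy

theorem image_ph_both {C : Finset X} (hv : v ∈ C) (hvw : v ≠ w) :
    C.image (ph v w) = C.erase w := by
  ext y
  rw [mem_image, mem_erase]
  constructor
  · rintro ⟨x, hx, rfl⟩
    by_cases h1 : x = w
    · rw [h1, ph_w]
      exact ⟨hvw, hv⟩
    · rw [ph_ne h1]
      exact ⟨h1, hx⟩
  · rintro ⟨h1, h2⟩
    exact ⟨y, h2, ph_ne h1⟩

variable (hS : Sph G A) (hv : v ∈ A) (hw : w ∈ A) (hvw : G.Adj v w) (hf : Free G A v w)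

include hS hv hw hvw hf

/-- Common neighbours of two adjacent vertices different from `v`. -/
theorem two_ne {u a : X} (huv : u ≠ v) (hu : u ∈ A.erase w) (hav : a ≠ v) (ha : a ∈ A.erase w)
    (hua : G.Adj u a) :
    (nbr (contr G v w) (nbr (contr G v w) (A.erase w) u) a).card = 2 := by
  have hu' := mem_erase.1 hu
  have ha' := mem_erase.1 ha
  have h1 : nbr (contr G v w) (nbr (contr G v w) (A.erase w) u) a =
      (nbr G (nbr G A u) a).image (ph v w) := by
    ext y
    rw [mem_nbr, nbr_contr hv hw hvw huv, mem_image, mem_image]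
    constructor
    · rintro ⟨⟨x, hx, rfl⟩, hay⟩
      have hx' := mem_nbr.1 hx
      by_cases hpv : ph v w x = v
      · rw [hpv, contr_right hav] at hay
        have hxvw : x = v ∨ x = w := by
          by_cases h2 : x = w
          · exact Or.inr h2
          · rw [ph_ne h2] at hpv
            exact Or.inl hpv
        rcases hxvw with rfl | rfl
        · -- `u ~ v`
          rcases hay with h3 | h3
          · exact ⟨x, mem_nn.2 ⟨hv, hx'.2, h3⟩, rfl⟩
          · -- `a ~ w`
            rcases hf a ha'.2 u hu'.2 hav hu'.1 hx'.2.symm hua h3 with h4 | h4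
            · exact ⟨x, mem_nn.2 ⟨hv, hx'.2, h4.symm⟩, rfl⟩
            · refine ⟨w, mem_nn.2 ⟨hw, h4, h3⟩, ?_⟩
              rw [ph_w, hpv]
        · -- `u ~ w`
          rcases hay with h3 | h3
          · rcases hf u hu'.2 a ha'.2 huv ha'.1 h3.symm hua.symm hx'.2 with h4 | h4
            · refine ⟨v, mem_nn.2 ⟨hv, h4.symm, h3⟩, ?_⟩
              rw [ph_ne hvw.ne, hpv]
            · exact ⟨x, mem_nn.2 ⟨hw, hx'.2, h4⟩, rfl⟩
          · exact ⟨x, mem_nn.2 ⟨hw, hx'.2, h3⟩, rfl⟩
      · have hxw : x ≠ w := by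
          rintro rfl
          exact hpv (ph_w _ _)
        rw [ph_ne hxw] at hpv hay ⊢
        rw [contr_ne hav hpv] at hay
        exact ⟨x, mem_nn.2 ⟨hx'.1, hx'.2, hay⟩, ph_ne hxw⟩
    · rintro ⟨x, hx, rfl⟩
      rw [mem_nn] at hx
      refine ⟨⟨x, mem_nbr.2 ⟨hx.1, hx.2.1⟩, rfl⟩, ?_⟩
      rcases ph_adj (v := v) (w := w) hx.2.2 with h2 | h2
      · rw [ph_ne ha'.1] at h2
        by_cases hxw : x = w
        · subst hxw
          rw [ph_w] at h2
          exact absurd h2 hav
        · rw [ph_ne hxw] at h2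
          exact absurd h2 hx.2.2.ne
      · rwa [ph_ne ha'.1] at h2
  rw [h1, card_image_ph, hS.two u hu'.2 a (mem_nbr.2 ⟨ha'.2, hua⟩)]
  rintro ⟨h2, h3⟩
  rw [mem_nn] at h2 h3
  exact noK4 hS hu'.2 ha'.2 hv hw hua h2.2.1 h3.2.1 h2.2.2 h3.2.2 hvw

/-- Common neighbours of `v` and another vertex. -/
theorem two_v {a : X} (ha : a ∈ nbr (contr G v w) (A.erase w) v) :
    (nbr (contr G v w) (nbr (contr G v w) (A.erase w) v) a).card = 2 := by
  rw [nbr_contr_v, mem_union, mem_erase, mem_erase, mem_nbr, mem_nbr] at ha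
  have hav : a ≠ v := by
    rcases ha with ha | ha
    · exact ha.2.2.ne'
    · exact ha.1
  have haw : a ≠ w := by
    rcases ha with ha | ha
    · exact ha.1
    · exact ha.2.2.ne'
  have haA : a ∈ A := by
    rcases ha with ha | ha
    · exact ha.2.1
    · exact ha.2.1
  have key : ∀ y, y ∈ nbr (contr G v w) (nbr (contr G v w) (A.erase w) v) a ↔
      y ∈ A ∧ y ≠ v ∧ y ≠ w ∧ G.Adj a y ∧ (G.Adj v y ∨ G.Adj w y) := by
    intro y
    rw [mem_nn, mem_erase]
    constructor
    · rintro ⟨⟨h1, h2⟩, h3, h4⟩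
      have hyv : y ≠ v := h3.ne'
      rw [contr_left hyv] at h3
      rw [contr_ne hav hyv] at h4
      exact ⟨h2, hyv, h1, h4, h3⟩
    · rintro ⟨h1, h2, h3, h4, h5⟩
      exact ⟨⟨h3, h1⟩, (contr_left h2).2 h5, contr_of_adj h4⟩
  by_cases h1 : G.Adj v a
  · by_cases h2 : G.Adj w a
    · -- both
      have hva : a ∈ nbr G A v := mem_nbr.2 ⟨haA, h1⟩
      have hwa : a ∈ nbr G A w := mem_nbr.2 ⟨haA, h2⟩
      have h3 : nbr (contr G v w) (nbr (contr G v w) (A.erase w) v) a =
          (nbr G (nbr G A v) a).erase w ∪ (nbr G (nbr G A w) a).erase v := by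
        ext y
        rw [key, mem_union, mem_erase, mem_erase, mem_nn, mem_nn]
        constructor
        · rintro ⟨k1, k2, k3, k4, k5 | k5⟩
          · exact Or.inl ⟨k3, k1, k5, k4⟩
          · exact Or.inr ⟨k2, k1, k5, k4⟩
        · rintro (⟨k1, k2, k3, k4⟩ | ⟨k1, k2, k3, k4⟩)
          · exact ⟨k2, k3.ne', k1, k4, Or.inl k3⟩
          · exact ⟨k2, k1, k3.ne', k4, Or.inr k3⟩
      have h4 : w ∈ nbr G (nbr G A v) a := mem_nn.2 ⟨hw, hvw, h2.symm⟩
      have h5 : v ∈ nbr G (nbr G A w) a := mem_nn.2 ⟨hv, hvw.symm, h1.symm⟩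
      rw [h3, Finset.card_union_of_disjoint, Finset.card_erase_of_mem h4,
        Finset.card_erase_of_mem h5, hS.two v hv a hva, hS.two w hw a hwa]
      rw [Finset.disjoint_left]
      intro y hy hy'
      rw [mem_erase, mem_nn] at hy hy'
      exact noK4 hS hv hw haA hy.2.1 hvw h1 hy.2.2.1 h2 hy'.2.2.1 hy.2.2.2
    · have hva : a ∈ nbr G A v := mem_nbr.2 ⟨haA, h1⟩
      rw [← hS.two v hv a hva]
      congr 1
      ext y
      rw [key, mem_nn]
      constructor
      · rintro ⟨k1, k2, k3, k4, k5 | k5⟩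
        · exact ⟨k1, k5, k4⟩
        · rcases hf y k1 a haA k2 haw h1 k4 k5.symm with k6 | k6
          · exact ⟨k1, k6, k4⟩
          · exact absurd k6.symm h2
      · rintro ⟨k1, k2, k3⟩
        exact ⟨k1, k2.ne', fun h => h2 (h ▸ k3.symm), k3, Or.inl k2⟩
  · have h2 : G.Adj w a := by
      rcases ha with ha | ha
      · exact absurd ha.2.2 h1
      · exact ha.2.2
    have hwa : a ∈ nbr G A w := mem_nbr.2 ⟨haA, h2⟩
    rw [← hS.two w hw a hwa]
    congr 1
    ext y
    rw [key, mem_nn]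
    constructor
    · rintro ⟨k1, k2, k3, k4, k5 | k5⟩
      · rcases hf a haA y k1 hav k3 k5 k4.symm h2.symm with k6 | k6
        · exact absurd k6 h1
        · exact ⟨k1, k6.symm, k4⟩
      · exact ⟨k1, k5, k4⟩
    · rintro ⟨k1, k2, k3⟩
      exact ⟨k1, fun h => h1 (h ▸ k3.symm), k2.ne', k3, Or.inr k2⟩

omit hf in
theorem card_nbr_v :
    (nbr (contr G v w) (A.erase w) v).card + 4 = (nbr G A v).card + (nbr G A w).card := by
  have hwP : w ∈ nbr G A v := mem_nbr.2 ⟨hw, hvw⟩
  have hvQ : v ∈ nbr G A w := mem_nbr.2 ⟨hv, hvw.symm⟩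
  have h1 : (nbr G A v).erase w ∩ (nbr G A w).erase v = nbr G (nbr G A v) w := by
    ext y
    rw [mem_inter, mem_erase, mem_erase, mem_nn, mem_nbr, mem_nbr]
    constructor
    · rintro ⟨⟨_, h2, h3⟩, _, _, h4⟩
      exact ⟨h2, h3, h4⟩
    · rintro ⟨h2, h3, h4⟩
      exact ⟨⟨h4.ne', h2, h3⟩, h3.ne', h2, h4⟩
  have h2 := Finset.card_union_add_card_inter ((nbr G A v).erase w) ((nbr G A w).erase v)
  rw [h1, hS.two v hv w hwP, ← nbr_contr_v, Finset.card_erase_of_mem hwP,
    Finset.card_erase_of_mem hvQ] at h2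
  have h3 := hS.big v hv
  have h4 := hS.big w hw
  omega

/-- The common neighbours of `v` and `w` have degree at least five. -/
theorem five_le {u : X} (hu : u ∈ A) (huv : G.Adj u v) (huw : G.Adj u w) :
    5 ≤ (nbr G A u).card := by
  have hvL : v ∈ nbr G A u := mem_nbr.2 ⟨hv, huv⟩
  have hwL : w ∈ nbr G A u := mem_nbr.2 ⟨hw, huw⟩
  obtain ⟨t, ht, htw⟩ : ∃ t ∈ nbr G (nbr G A u) v, t ≠ w := by
    by_contra h
    push Not at h
    have h1 : nbr G (nbr G A u) v ⊆ {w} := fun y hy => mem_singleton.2 (h y hy)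
    have h2 := Finset.card_le_card h1
    rw [hS.two u hu v hvL, Finset.card_singleton] at h2
    omega
  obtain ⟨s, hs, hsv⟩ : ∃ s ∈ nbr G (nbr G A u) w, s ≠ v := by
    by_contra h
    push Not at h
    have h1 : nbr G (nbr G A u) w ⊆ {v} := fun y hy => mem_singleton.2 (h y hy)
    have h2 := Finset.card_le_card h1
    rw [hS.two u hu w hwL, Finset.card_singleton] at h2
    omega
  have ht' := mem_nn.1 ht
  have hs' := mem_nn.1 hs
  have htL := (mem_nbr.1 ht).1
  have hsL := (mem_nbr.1 hs).1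
  have htw' : ¬ G.Adj t w := fun h => noK4 hS hu hv hw ht'.1 huv huw ht'.2.1 hvw ht'.2.2 h.symm
  have hsv' : ¬ G.Adj v s := fun h => noK4 hS hu hv hw hs'.1 huv huw hs'.2.1 hvw h hs'.2.2
  have hst : s ≠ t := fun h => htw' (h ▸ hs'.2.2.symm)
  by_contra hlt
  have h4 : (nbr G A u).card = 4 := by
    have := hS.big u hu
    omega
  have hL : ({v, w, s, t} : Finset X) = nbr G A u := by
    apply Finset.eq_of_subset_of_card_le
    · intro r hr
      simp only [mem_insert, mem_singleton] at hr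
      rcases hr with rfl | rfl | rfl | rfl
      · exact hvL
      · exact hwL
      · exact hsL
      · exact htL
    · rw [h4, Finset.card_insert_of_notMem, Finset.card_insert_of_notMem, Finset.card_pair hst]
      · simp only [mem_insert, mem_singleton, not_or]
        exact ⟨hs'.2.2.ne, htw.symm⟩
      · simp only [mem_insert, mem_singleton, not_or]
        exact ⟨hvw.ne, hsv.symm, ht'.2.2.ne⟩
  have hsn : nbr G (nbr G A u) s ⊆ {w, t} := by
    intro r hr
    rw [mem_nbr, ← hL] at hr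
    simp only [mem_insert, mem_singleton] at hr ⊢
    obtain ⟨h1, h2⟩ := hr
    rcases h1 with rfl | rfl | rfl | rfl
    · exact absurd h2.symm hsv'
    · exact Or.inl rfl
    · exact absurd rfl h2.ne
    · exact Or.inr rfl
  have hsn2 : nbr G (nbr G A u) s = {w, t} := by
    apply Finset.eq_of_subset_of_card_le hsn
    rw [hS.two u hu s hsL, Finset.card_pair htw.symm]
  have hst' : G.Adj s t := by
    have : t ∈ nbr G (nbr G A u) s := by
      rw [hsn2]; exact mem_insert_of_mem (mem_singleton_self _)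
    exact (mem_nbr.1 this).2
  rcases hf s hs'.1 t ht'.1 hsv htw ht'.2.2 hst'.symm hs'.2.2.symm with h | h
  · exact hsv' h
  · exact htw' h

omit hf in
/-- Degrees of the other vertices. -/
theorem card_nbr_ne {u : X} (huv : u ≠ v) :
    (nbr (contr G v w) (A.erase w) u).card + (if u ∈ nbr G (nbr G A v) w then 1 else 0) =
      (nbr G A u).card ∨ u ∉ A := by
  by_cases huA : u ∈ A
  · left
    rw [nbr_contr hv hw hvw huv]
    by_cases h : v ∈ nbr G A u ∧ w ∈ nbr G A u
    · rw [image_ph_both h.1 hvw.ne, Finset.card_erase_of_mem h.2]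
      have h1 : u ∈ nbr G (nbr G A v) w :=
        mem_nn.2 ⟨huA, (mem_nbr.1 h.1).2.symm, (mem_nbr.1 h.2).2.symm⟩
      rw [if_pos h1]
      have := hS.big u huA
      omega
    · have h1 : u ∉ nbr G (nbr G A v) w := by
        intro h1
        rw [mem_nn] at h1
        exact h ⟨mem_nbr.2 ⟨hv, h1.2.1.symm⟩, mem_nbr.2 ⟨hw, h1.2.2.symm⟩⟩
      rw [if_neg h1, card_image_ph h, add_zero]
  · exact Or.inr huA

theorem sph_contr : Sph (contr G v w) (A.erase w) := by
  have hwP : w ∈ nbr G A v := mem_nbr.2 ⟨hw, hvw⟩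
  have hvQ : v ∈ nbr G A w := mem_nbr.2 ⟨hv, hvw.symm⟩
  have hvA' : v ∈ A.erase w := mem_erase.2 ⟨hvw.ne, hv⟩
  have hR : nbr G (nbr G A v) w ⊆ (A.erase w).erase v := by
    intro y hy
    rw [mem_nn] at hy
    rw [mem_erase, mem_erase]
    exact ⟨hy.2.1.ne', hy.2.2.ne', hy.1⟩
  refine ⟨?_, ?_, ?_, ?_, ?_⟩
  · intro u hu a ha
    by_cases huv : u = v
    · subst huv
      exact two_v hS hv hw hvw hf ha
    · by_cases hav : a = v
      · subst hav
        rw [nn_comm]
        apply two_v hS hv hw hvw hf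
        rw [mem_nbr] at ha ⊢
        exact ⟨hu, ha.2.symm⟩
      · rw [mem_nbr, contr_ne huv hav] at ha
        exact two_ne hS hv hw hvw hf huv hu hav ha.1 ha.2
  · intro u hu
    rw [mem_erase] at hu
    by_cases huv : u = v
    · subst huv
      have h1 := card_nbr_v hS hv hw hvw
      have h2 := hS.big u hv
      have h3 := hS.big w hw
      omega
    · rw [nbr_contr hv hw hvw huv]
      by_cases h : v ∈ nbr G A u ∧ w ∈ nbr G A u
      · rw [image_ph_both h.1 hvw.ne, Finset.card_erase_of_mem h.2]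
        have := five_le hS hv hw hvw hf hu.2 (mem_nbr.1 h.1).2 (mem_nbr.1 h.2).2
        omega
      · rw [card_image_ph h]
        exact hS.big u hu.2
  · intro u hu
    rw [mem_erase] at hu
    by_cases huv : u = v
    · subst huv
      have hP : Cn G ((nbr G A u).erase w) :=
        cn_erase (fun a ha => hS.two u hv a ha) (hS.lconn u hv) hwP
      have hQ : Cn G ((nbr G A w).erase u) :=
        cn_erase (fun a ha => hS.two w hw a ha) (hS.lconn w hw) hvQ
      have hvP' : u ∉ (nbr G A u).erase w := fun h => (mem_nbr.1 (mem_erase.1 h).2).2.ne rfl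
      have hvQ' : u ∉ (nbr G A w).erase u := Finset.notMem_erase _ _
      obtain ⟨r, hr⟩ : (nbr G (nbr G A u) w).Nonempty := by
        rw [← Finset.card_pos, hS.two u hv w hwP]
        norm_num
      have hr' := mem_nn.1 hr
      have hrP : r ∈ (nbr G A u).erase w :=
        mem_erase.2 ⟨hr'.2.2.ne', mem_nbr.2 ⟨hr'.1, hr'.2.1⟩⟩
      have hrQ : r ∈ (nbr G A w).erase u :=
        mem_erase.2 ⟨hr'.2.1.ne', mem_nbr.2 ⟨hr'.1, hr'.2.2⟩⟩
      rw [nbr_contr_v]
      intro S hSs hne hcl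
      have hadj : ∀ x ∈ (nbr G A u).erase w ∪ (nbr G A w).erase u,
          ∀ y ∈ (nbr G A u).erase w ∪ (nbr G A w).erase u, G.Adj x y →
          (contr G u w).Adj x y := fun x _ y _ h => contr_of_adj h
      have h1 : (S ∩ (nbr G A u).erase w).Nonempty → (nbr G A u).erase w ⊆ S := by
        intro h2
        have h3 := hP (S ∩ (nbr G A u).erase w) Finset.inter_subset_right h2 (by
          intro x hx y hy hxy
          rw [mem_inter] at hx ⊢
          exact ⟨hcl x hx.1 y (mem_union_left _ hy)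
            (hadj x (mem_union_left _ hx.2) y (mem_union_left _ hy) hxy), hy⟩)
        rw [← h3]
        exact Finset.inter_subset_left
      have h2 : (S ∩ (nbr G A w).erase u).Nonempty → (nbr G A w).erase u ⊆ S := by
        intro h2
        have h3 := hQ (S ∩ (nbr G A w).erase u) Finset.inter_subset_right h2 (by
          intro x hx y hy hxy
          rw [mem_inter] at hx ⊢
          exact ⟨hcl x hx.1 y (mem_union_right _ hy)
            (hadj x (mem_union_right _ hx.2) y (mem_union_right _ hy) hxy), hy⟩)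
        rw [← h3]
        exact Finset.inter_subset_left
      have h3 : (nbr G A u).erase w ⊆ S ∧ (nbr G A w).erase u ⊆ S := by
        obtain ⟨s, hs⟩ := hne
        have hs' := hSs hs
        rw [mem_union] at hs'
        rcases hs' with hs' | hs'
        · have h4 := h1 ⟨s, mem_inter.2 ⟨hs, hs'⟩⟩
          exact ⟨h4, h2 ⟨r, mem_inter.2 ⟨h4 hrP, hrQ⟩⟩⟩
        · have h4 := h2 ⟨s, mem_inter.2 ⟨hs, hs'⟩⟩
          exact ⟨h1 ⟨r, mem_inter.2 ⟨h4 hrQ, hrP⟩⟩, h4⟩
      exact Finset.Subset.antisymm hSs (Finset.union_subset h3.1 h3.2)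
    · rw [nbr_contr hv hw hvw huv]
      exact cn_image (hS.lconn u hu.2)
  · have h1 : A.erase w = A.image (ph v w) := (image_ph_both hv hvw.ne).symm
    rw [h1]
    exact cn_image hS.conn
  · have h1 := card_nbr_v hS hv hw hvw
    have h2 : ∑ u ∈ (A.erase w).erase v, (nbr (contr G v w) (A.erase w) u).card + 2 =
        ∑ u ∈ (A.erase w).erase v, (nbr G A u).card := by
      have h3 : ∑ u ∈ (A.erase w).erase v, (if u ∈ nbr G (nbr G A v) w then 1 else 0) = 2 := by
        rw [← Finset.sum_filter, Finset.sum_const, smul_eq_mul, mul_one,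
          Finset.filter_mem_eq_inter, Finset.inter_eq_right.2 hR, hS.two v hv w hwP]
      rw [← h3, ← Finset.sum_add_distrib]
      refine Finset.sum_congr rfl fun u hu => ?_
      rw [mem_erase, mem_erase] at hu
      rcases card_nbr_ne hS hv hw hvw hu.1 with h4 | h4
      · exact h4
      · exact absurd hu.2.2 h4
    have h4 := Finset.add_sum_erase (A.erase w)
      (fun u => (nbr (contr G v w) (A.erase w) u).card) hvA'
    have h5 := Finset.add_sum_erase (A.erase w) (fun u => (nbr G A u).card) hvA'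
    have h6 := Finset.add_sum_erase A (fun u => (nbr G A u).card) hw
    have h7 := hS.deg
    have h8 : (A.erase w).card + 1 = A.card := Finset.card_erase_add_one hw
    omega

end

end Pool.Agent.Helper61.FS
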