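import Pool.Agent.Helper61.FS.Bound

/-!
# The crossing lemma and contractible edges
-/

open Finset

namespace Pool.Agent.Helper61.FS

open Pool.Agent.Helper51.CD Pool.Agent.Helper51.CD.Cube

variable {X : Type} [DecidableEq X]

theorem sum_ind {G : SimpleGraph X} {A : Finset X} {s t v : X} (hs : s ∈ A) (ht : t ∈ A)
    (hst : G.Adj s t) :
    ∑ q ∈ nbr G A v, (if ({v, q} : Finset X) = {s, t} then 1 else 0 : ZMod 2) =
      (if v = s then 1 else 0) + (if v = t then 1 else 0) := by
  by_cases h1 : v = s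
  · subst h1
    have h2 : v ≠ t := hst.ne
    rw [if_pos rfl, if_neg h2, add_zero]
    rw [Finset.sum_eq_single t]
    · rw [if_pos rfl]
    · intro q hq hqt
      rw [if_neg]
      intro h
      have h3 : t ∈ ({v, q} : Finset X) := by rw [h]; exact mem_insert_of_mem (mem_singleton_self _)
      rw [mem_insert, mem_singleton] at h3
      rcases h3 with h3 | h3
      · exact h2 h3.symm
      · exact hqt h3.symm
    · intro h
      exact absurd (mem_nbr.2 ⟨ht, hst⟩) h
  · by_cases h2 : v = t
    · subst h2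
      rw [if_neg h1, if_pos rfl, zero_add]
      rw [Finset.sum_eq_single s]
      · rw [if_pos (Finset.pair_comm _ _)]
      · intro q hq hqt
        rw [if_neg]
        intro h
        have h3 : s ∈ ({v, q} : Finset X) := by rw [h]; exact mem_insert_self _ _
        rw [mem_insert, mem_singleton] at h3
        rcases h3 with h3 | h3
        · exact h1 h3.symm
        · exact hqt h3.symm
      · intro h
        exact absurd (mem_nbr.2 ⟨hs, hst.symm⟩) h
    · rw [if_neg h1, if_neg h2, add_zero]
      apply Finset.sum_eq_zero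
      intro q _
      rw [if_neg]
      intro h
      have h3 : v ∈ ({s, t} : Finset X) := by rw [← h]; exact mem_insert_self _ _
      rw [mem_insert, mem_singleton] at h3
      rcases h3 with h3 | h3
      · exact h1 h3
      · exact h2 h3

/-- The crossing lemma: `b` and `d` are the neighbours of `a` in the link of `u`, `c` is another
vertex of this link, `x` is adjacent to `a` and `c`, `y` is adjacent to `b` and `d`, and `x`, `y`
are not adjacent to `u`. Then `x = y`. -/
theorem crossing {G : SimpleGraph X} {A : Finset X} (hS : Sph G A) {u a b c d x y : X}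
    (hu : u ∈ A) (ha : a ∈ nbr G A u) (hb : b ∈ nbr G A u) (hc : c ∈ nbr G A u)
    (hd : d ∈ nbr G A u) (hab : G.Adj a b) (had : G.Adj a d) (hbd : b ≠ d) (hca : c ≠ a)
    (hcb : c ≠ b) (hcd : c ≠ d) (hx : x ∈ A) (hxu : x ≠ u) (hxu' : ¬ G.Adj u x)
    (hxa : G.Adj x a) (hxc : G.Adj x c) (hy : y ∈ A) (hyu : y ≠ u) (hyu' : ¬ G.Adj u y)
    (hyb : G.Adj y b) (hyd : G.Adj y d) : x = y := by
  by_contra hxy
  have ha' := mem_nbr.1 ha
  have hb' := mem_nbr.1 hb
  have hc' := mem_nbr.1 hc
  have hd' := mem_nbr.1 hd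
  set z : Finset X → ZMod 2 := fun e => (if e = {u, a} then 1 else 0) +
    (if e = {a, x} then 1 else 0) + (if e = {x, c} then 1 else 0) + (if e = {c, u} then 1 else 0)
    with hz
  have hcyc : ∀ v ∈ A, ∑ q ∈ nbr G A v, z {v, q} = 0 := by
    intro v _
    simp only [hz, Finset.sum_add_distrib]
    rw [sum_ind hu ha'.1 ha'.2, sum_ind ha'.1 hx hxa.symm, sum_ind hx hc'.1 hxc,
      sum_ind hc'.1 hu hc'.2.symm]
    generalize (if v = u then 1 else 0 : ZMod 2) = p1
    generalize (if v = a then 1 else 0 : ZMod 2) = p2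
    generalize (if v = x then 1 else 0 : ZMod 2) = p3
    generalize (if v = c then 1 else 0 : ZMod 2) = p4
    revert p1 p2 p3 p4
    decide
  obtain ⟨T, hT⟩ := bounds hS z hcyc
  -- vertices off the cycle have a constant
  have hoff : ∀ v ∈ A, v ≠ u → v ≠ a → v ≠ x → v ≠ c →
      ∃ k, ∀ p ∈ nbr G A v, ∀ q ∈ nbr G (nbr G A v) p, T {v, p, q} = k := by
    intro v hv h1 h2 h3 h4
    apply star_const hS T hv
    intro p hp
    rw [hT v hv p hp]
    have hmem : ∀ s t : X, ({v, p} : Finset X) = {s, t} → v = s ∨ v = t := by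
      intro s t h
      have h5 : v ∈ ({s, t} : Finset X) := by rw [← h]; exact mem_insert_self _ _
      rw [mem_insert, mem_singleton] at h5
      exact h5
    simp only [hz]
    rw [if_neg, if_neg, if_neg, if_neg]
    · simp
    · intro h; rcases hmem _ _ h with h | h
      · exact h4 h
      · exact h1 h
    · intro h; rcases hmem _ _ h with h | h
      · exact h3 h
      · exact h4 h
    · intro h; rcases hmem _ _ h with h | h
      · exact h2 h
      · exact h3 h
    · intro h; rcases hmem _ _ h with h | h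
      · exact h1 h
      · exact h2 h
  have hbx : b ≠ x := fun h => hxu' (h ▸ hb'.2)
  have hdx : d ≠ x := fun h => hxu' (h ▸ hd'.2)
  have hya : y ≠ a := fun h => hyu' (h ▸ ha'.2)
  have hyc : y ≠ c := fun h => hyu' (h ▸ hc'.2)
  obtain ⟨kb, hkb⟩ := hoff b hb'.1 hb'.2.ne' hab.ne' hbx hcb.symm
  obtain ⟨kd, hkd⟩ := hoff d hd'.1 hd'.2.ne' had.ne' hdx hcd.symm
  obtain ⟨ky, hky⟩ := hoff y hy hyu hya (Ne.symm hxy) hyc
  have e1 : ky = kb := const_eq hS T hy hb'.1 hyb hky hkb
  have e2 : ky = kd := const_eq hS T hy hd'.1 hyd hky hkd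
  have hnn : nbr G (nbr G A u) a = {b, d} := by
    symm
    apply Finset.eq_of_subset_of_card_le
    · intro p hp
      rw [mem_insert, mem_singleton] at hp
      rcases hp with rfl | rfl
      · exact mem_nbr.2 ⟨hb, hab⟩
      · exact mem_nbr.2 ⟨hd, had⟩
    · rw [hS.two u hu a ha, Finset.card_pair hbd]
  have h1 := hT u hu a ha
  rw [hnn, Finset.sum_pair hbd] at h1
  have hzua : z {u, a} = 1 := by
    have n1 : ({u, a} : Finset X) ≠ {a, x} := by
      intro h
      have h5 : u ∈ ({a, x} : Finset X) := by rw [← h]; exact mem_insert_self _ _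
      rw [mem_insert, mem_singleton] at h5
      rcases h5 with h5 | h5
      · exact ha'.2.ne h5
      · exact hxu h5.symm
    have n2 : ({u, a} : Finset X) ≠ {x, c} := by
      intro h
      have h5 : u ∈ ({x, c} : Finset X) := by rw [← h]; exact mem_insert_self _ _
      rw [mem_insert, mem_singleton] at h5
      rcases h5 with h5 | h5
      · exact hxu h5.symm
      · exact hc'.2.ne h5
    have n3 : ({u, a} : Finset X) ≠ {c, u} := by
      intro h
      have h5 : a ∈ ({c, u} : Finset X) := by
        rw [← h]; exact mem_insert_of_mem (mem_singleton_self _)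
      rw [mem_insert, mem_singleton] at h5
      rcases h5 with h5 | h5
      · exact hca h5.symm
      · exact ha'.2.ne' h5
    simp only [hz]
    rw [if_pos trivial, if_neg n1, if_neg n2, if_neg n3]
    rfl
  have hTb : T {u, a, b} = kb := by
    have : ({u, a, b} : Finset X) = {b, u, a} := by
      ext p; simp only [mem_insert, mem_singleton]; tauto
    rw [this]
    exact hkb u (mem_nbr.2 ⟨hu, hb'.2.symm⟩) a (mem_nn.2 ⟨ha'.1, hab.symm, ha'.2⟩)
  have hTd : T {u, a, d} = kd := by
    have : ({u, a, d} : Finset X) = {d, u, a} := by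
      ext p; simp only [mem_insert, mem_singleton]; tauto
    rw [this]
    exact hkd u (mem_nbr.2 ⟨hu, hd'.2.symm⟩) a (mem_nn.2 ⟨ha'.1, had.symm, ha'.2⟩)
  rw [hTb, hTd, ← e1, ← e2, hzua, CharTwo.add_self_eq_zero] at h1
  exact zero_ne_one h1

/-- The edge `v w` lies in a four-cycle `v y x w` without diagonals. -/
def Blocked (G : SimpleGraph X) (A : Finset X) (v w : X) : Prop :=
  ∃ x ∈ A, ∃ y ∈ A, x ≠ v ∧ y ≠ w ∧ G.Adj v y ∧ G.Adj y x ∧ G.Adj x w ∧ ¬ G.Adj v x ∧ ¬ G.Adj y w

/-- The suspension: two nonadjacent vertices `u`, `x` adjacent to all the vertices of `B`. -/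
def Susp (G : SimpleGraph X) (A : Finset X) : Prop :=
  ∃ u x : X, ∃ B : Finset X, u ≠ x ∧ ¬ G.Adj u x ∧ (∀ b ∈ B, G.Adj u b ∧ G.Adj x b) ∧
    A = insert u (insert x B)

/-- A closed subset of the link is the link. -/
theorem link_eq {G : SimpleGraph X} {A : Finset X} (hS : Sph G A) {v : X} (hv : v ∈ A)
    {S : Finset X} (h1 : S ⊆ nbr G A v) (h2 : S.Nonempty)
    (h3 : ∀ s ∈ S, ∃ p ∈ S, ∃ q ∈ S, p ≠ q ∧ G.Adj s p ∧ G.Adj s q) : S = nbr G A v := by
  apply hS.lconn v hv S h1 h2
  intro s hs t ht hst
  obtain ⟨p, hp, q, hq, hpq, hsp, hsq⟩ := h3 s hs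
  have h4 : nbr G (nbr G A v) s = {p, q} := by
    symm
    apply Finset.eq_of_subset_of_card_le
    · intro r hr
      rw [mem_insert, mem_singleton] at hr
      rcases hr with rfl | rfl
      · exact mem_nbr.2 ⟨h1 hp, hsp⟩
      · exact mem_nbr.2 ⟨h1 hq, hsq⟩
    · rw [hS.two v hv s (h1 hs), Finset.card_pair hpq]
  have h5 : t ∈ nbr G (nbr G A v) s := mem_nbr.2 ⟨ht, hst⟩
  rw [h4, mem_insert, mem_singleton] at h5
  rcases h5 with rfl | rfl
  · exact hp
  · exact hq

omit [DecidableEq X] in
theorem blocked_iff {G : SimpleGraph X} {A : Finset X} {v w : X} (h : Blocked G A v w) :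
    ∃ x ∈ A, ∃ c ∈ nbr G A v, x ≠ v ∧ ¬ G.Adj v x ∧ c ≠ w ∧ ¬ G.Adj c w ∧ G.Adj x w ∧
      G.Adj x c := by
  obtain ⟨x, hx, y, hy, h1, h2, h3, h4, h5, h6, h7⟩ := h
  exact ⟨x, hx, y, mem_nbr.2 ⟨hy, h3⟩, h1, h6, h2, h7, h5, h4.symm⟩

theorem susp_of_common {G : SimpleGraph X} {A : Finset X} (hS : Sph G A) {u x : X} (hu : u ∈ A)
    (hx : x ∈ A) (hxu : x ≠ u) (hux : ¬ G.Adj u x) (h : ∀ a ∈ nbr G A u, G.Adj x a) :
    Susp G A := by
  have hL : nbr G A u = nbr G A x := by
    apply link_eq hS hx
    · intro a ha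
      exact mem_nbr.2 ⟨(mem_nbr.1 ha).1, h a ha⟩
    · rw [← Finset.card_pos]
      have := hS.big u hu
      omega
    · intro s hs
      obtain ⟨p, q, hpq, hn⟩ := Finset.card_eq_two.1 (hS.two u hu s hs)
      have hp : p ∈ nbr G (nbr G A u) s := by rw [hn]; exact mem_insert_self _ _
      have hq : q ∈ nbr G (nbr G A u) s := by
        rw [hn]; exact mem_insert_of_mem (mem_singleton_self _)
      exact ⟨p, (mem_nbr.1 hp).1, q, (mem_nbr.1 hq).1, hpq, (mem_nbr.1 hp).2, (mem_nbr.1 hq).2⟩
  refine ⟨u, x, nbr G A u, hxu.symm, hux, fun b hb => ⟨(mem_nbr.1 hb).2, h b hb⟩, ?_⟩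
  symm
  apply hS.conn
  · intro s hs
    rw [mem_insert, mem_insert] at hs
    rcases hs with rfl | rfl | hs
    · exact hu
    · exact hx
    · exact (mem_nbr.1 hs).1
  · exact ⟨u, mem_insert_self _ _⟩
  · intro s hs t ht hst
    rw [mem_insert, mem_insert] at hs
    rcases hs with rfl | rfl | hs
    · exact mem_insert_of_mem (mem_insert_of_mem (mem_nbr.2 ⟨ht, hst⟩))
    · apply mem_insert_of_mem
      apply mem_insert_of_mem
      rw [hL]
      exact mem_nbr.2 ⟨ht, hst⟩
    · obtain ⟨p, q, hpq, hn⟩ := Finset.card_eq_two.1 (hS.two u hu s hs)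
      have hp : p ∈ nbr G (nbr G A u) s := by rw [hn]; exact mem_insert_self _ _
      have hq : q ∈ nbr G (nbr G A u) s := by
        rw [hn]; exact mem_insert_of_mem (mem_singleton_self _)
      have hp' := mem_nn.1 hp
      have hq' := mem_nn.1 hq
      have hpu := (mem_nbr.1 hp).1
      have hqu := (mem_nbr.1 hq).1
      have hs' := mem_nbr.1 hs
      have hlink : ({u, x, p, q} : Finset X) = nbr G A s := by
        apply link_eq hS hs'.1
        · intro r hr
          simp only [mem_insert, mem_singleton] at hr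
          rcases hr with rfl | rfl | rfl | rfl
          · exact mem_nbr.2 ⟨hu, hs'.2.symm⟩
          · exact mem_nbr.2 ⟨hx, (h s hs).symm⟩
          · exact mem_nbr.2 ⟨hp'.1, hp'.2.2⟩
          · exact mem_nbr.2 ⟨hq'.1, hq'.2.2⟩
        · exact ⟨u, mem_insert_self _ _⟩
        · intro r hr
          simp only [mem_insert, mem_singleton] at hr
          rcases hr with rfl | rfl | rfl | rfl
          · exact ⟨p, by simp, q, by simp, hpq, hp'.2.1, hq'.2.1⟩
          · exact ⟨p, by simp, q, by simp, hpq, h p hpu, h q hqu⟩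
          · exact ⟨u, by simp, x, by simp, hxu.symm, hp'.2.1.symm, (h _ hpu).symm⟩
          · exact ⟨u, by simp, x, by simp, hxu.symm, hq'.2.1.symm, (h _ hqu).symm⟩
      have ht' : t ∈ nbr G A s := mem_nbr.2 ⟨ht, hst⟩
      rw [← hlink] at ht'
      simp only [mem_insert, mem_singleton] at ht'
      rcases ht' with rfl | rfl | rfl | rfl
      · exact mem_insert_self _ _
      · exact mem_insert_of_mem (mem_insert_self _ _)
      · exact mem_insert_of_mem (mem_insert_of_mem hpu)
      · exact mem_insert_of_mem (mem_insert_of_mem hqu)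

/-- A flag sphere is a suspension or has an edge that can be contracted. -/
theorem exists_edge {G : SimpleGraph X} {A : Finset X} (hS : Sph G A) :
    (∃ v ∈ A, ∃ w ∈ nbr G A v, ¬ Blocked G A v w) ∨ Susp G A := by
  by_contra hcon
  push Not at hcon
  obtain ⟨hall, hns⟩ := hcon
  -- a vertex of degree at most five
  have hdeg : ∃ u ∈ A, (nbr G A u).card ≤ 5 := by
    by_contra h
    push Not at h
    have h1 : ∑ _v ∈ A, 6 ≤ ∑ v ∈ A, (nbr G A v).card := Finset.sum_le_sum fun v hv => h v hv
    rw [Finset.sum_const, smul_eq_mul] at h1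
    have := hS.deg
    omega
  by_cases h4 : ∃ u ∈ A, (nbr G A u).card = 4
  · obtain ⟨u, hu, hu4⟩ := h4
    apply hns
    have hne : (nbr G A u).Nonempty := by rw [← Finset.card_pos]; omega
    obtain ⟨a, ha⟩ := hne
    obtain ⟨x, hx, c, hc, hxu, hux, hca, hca', hxa, hxc⟩ := blocked_iff (hall u hu a ha)
    obtain ⟨b, d, hbd, hn⟩ := Finset.card_eq_two.1 (hS.two u hu a ha)
    have hb : b ∈ nbr G (nbr G A u) a := by rw [hn]; exact mem_insert_self _ _
    have hd : d ∈ nbr G (nbr G A u) a := by rw [hn]; exact mem_insert_of_mem (mem_singleton_self _)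
    have hbL := (mem_nbr.1 hb).1
    have hdL := (mem_nbr.1 hd).1
    have hab := (mem_nbr.1 hb).2
    have had := (mem_nbr.1 hd).2
    have hcb : c ≠ b := fun h => hca' (h ▸ hab.symm)
    have hcd : c ≠ d := fun h => hca' (h ▸ had.symm)
    have hL : ({a, b, c, d} : Finset X) = nbr G A u := by
      apply Finset.eq_of_subset_of_card_le
      · intro r hr
        simp only [mem_insert, mem_singleton] at hr
        rcases hr with rfl | rfl | rfl | rfl
        · exact ha
        · exact hbL
        · exact hc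
        · exact hdL
      · rw [hu4, Finset.card_insert_of_notMem, Finset.card_insert_of_notMem,
          Finset.card_pair hcd]
        · simp only [mem_insert, mem_singleton, not_or]
          exact ⟨hcb.symm, hbd⟩
        · simp only [mem_insert, mem_singleton, not_or]
          exact ⟨hab.ne, hca.symm, had.ne⟩
    -- the neighbours of `c`
    have hcn : nbr G (nbr G A u) c = {b, d} := by
      apply Finset.eq_of_subset_of_card_le
      · intro r hr
        rw [mem_nbr, ← hL] at hr
        simp only [mem_insert, mem_singleton] at hr ⊢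
        obtain ⟨h1, h2⟩ := hr
        rcases h1 with rfl | rfl | rfl | rfl
        · exact absurd h2 hca'
        · exact Or.inl rfl
        · exact absurd rfl h2.ne
        · exact Or.inr rfl
      · rw [hS.two u hu c hc, Finset.card_pair hbd]
    have hcb2 : G.Adj c b := by
      have : b ∈ nbr G (nbr G A u) c := by rw [hcn]; exact mem_insert_self _ _
      exact (mem_nbr.1 this).2
    obtain ⟨y, hy, c', hc', hyu, huy, hc'b, hc'b', hyb, hyc'⟩ := blocked_iff (hall u hu b hbL)
    have hc'd : c' = d := by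
      rw [← hL] at hc'
      simp only [mem_insert, mem_singleton] at hc'
      rcases hc' with rfl | rfl | rfl | rfl
      · exact absurd hab hc'b'
      · exact absurd rfl hc'b
      · exact absurd hcb2 hc'b'
      · rfl
    subst hc'd
    have hxy := crossing hS hu ha hbL hc hdL hab had hbd hca hcb hcd hx hxu hux hxa hxc hy hyu huy
      hyb hyc'
    subst hxy
    apply susp_of_common hS hu hx hxu hux
    intro r hr
    rw [← hL] at hr
    simp only [mem_insert, mem_singleton] at hr
    rcases hr with rfl | rfl | rfl | rfl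
    · exact hxa
    · exact hyb
    · exact hxc
    · exact hyc'
  · obtain ⟨u, hu, hu5⟩ := hdeg
    have hcard : (nbr G A u).card = 5 := by
      have h1 := hS.big u hu
      have h2 : (nbr G A u).card ≠ 4 := fun h => h4 ⟨u, hu, h⟩
      omega
    have hne : (nbr G A u).Nonempty := by rw [← Finset.card_pos]; omega
    obtain ⟨a, ha⟩ := hne
    obtain ⟨x, hx, c, hc, hxu, hux, hca, hca', hxa, hxc⟩ := blocked_iff (hall u hu a ha)
    -- a common neighbour of `a` and `c`
    have hb : ∃ b ∈ nbr G A u, G.Adj a b ∧ G.Adj c b := by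
      by_contra hno
      push Not at hno
      have hdis : Disjoint (nbr G (nbr G A u) a) (nbr G (nbr G A u) c) := by
        rw [Finset.disjoint_left]
        intro r hr hr'
        exact hno r (mem_nbr.1 hr).1 (mem_nbr.1 hr).2 (mem_nbr.1 hr').2
      have hsub : nbr G (nbr G A u) a ∪ nbr G (nbr G A u) c ⊆ ((nbr G A u).erase a).erase c := by
        intro r hr
        rw [mem_union] at hr
        rw [mem_erase, mem_erase]
        rcases hr with hr | hr
        · rw [mem_nbr] at hr
          exact ⟨fun h => hca' (h ▸ hr.2.symm), hr.2.ne', hr.1⟩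
        · rw [mem_nbr] at hr
          exact ⟨hr.2.ne', fun h => hca' (h ▸ hr.2), hr.1⟩
      have h1 := Finset.card_le_card hsub
      rw [Finset.card_union_of_disjoint hdis, hS.two u hu a ha, hS.two u hu c hc,
        Finset.card_erase_of_mem (mem_erase.2 ⟨hca, hc⟩), Finset.card_erase_of_mem ha,
        hcard] at h1
      omega
    obtain ⟨b, hbL, hab, hcb⟩ := hb
    obtain ⟨y, hy, d, hd, hyu, huy, hdb, hdb', hyb, hyd⟩ := blocked_iff (hall u hu b hbL)
    have hda : d ≠ a := fun h => hdb' (h ▸ hab)
    have hdc : d ≠ c := fun h => hdb' (h ▸ hcb)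
    have hor : G.Adj d a ∨ G.Adj d c := by
      by_contra hno
      push Not at hno
      have hsub : nbr G (nbr G A u) d ⊆ ((((nbr G A u).erase a).erase c).erase b).erase d := by
        intro r hr
        rw [mem_nbr] at hr
        simp only [mem_erase]
        exact ⟨hr.2.ne', fun h => hdb' (h ▸ hr.2), fun h => hno.2 (h ▸ hr.2),
          fun h => hno.1 (h ▸ hr.2), hr.1⟩
      have h1 := Finset.card_le_card hsub
      have m1 : c ∈ (nbr G A u).erase a := mem_erase.2 ⟨hca, hc⟩
      have m2 : b ∈ ((nbr G A u).erase a).erase c :=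
        mem_erase.2 ⟨hcb.ne', mem_erase.2 ⟨hab.ne', hbL⟩⟩
      have m3 : d ∈ (((nbr G A u).erase a).erase c).erase b :=
        mem_erase.2 ⟨hdb, mem_erase.2 ⟨hdc, mem_erase.2 ⟨hda, hd⟩⟩⟩
      rw [hS.two u hu d hd, Finset.card_erase_of_mem m3, Finset.card_erase_of_mem m2,
        Finset.card_erase_of_mem m1, Finset.card_erase_of_mem ha, hcard] at h1
      omega
    have hxy : x = y := by
      rcases hor with h | h
      · exact crossing hS hu ha hbL hc hd hab h.symm hdb.symm hca hcb.ne hdc.symm hx hxu hux hxa hxc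
          hy hyu huy hyb hyd
      · exact crossing hS hu hc hbL ha hd hcb h.symm hdb.symm hca.symm hab.ne hda.symm hx hxu hux
          hxc hxa hy hyu huy hyb hyd
    subst hxy
    apply h4
    have hb' := mem_nbr.1 hbL
    have ha' := mem_nbr.1 ha
    have hc' := mem_nbr.1 hc
    refine ⟨b, hb'.1, ?_⟩
    have hlink : ({u, a, c, x} : Finset X) = nbr G A b := by
      apply link_eq hS hb'.1
      · intro r hr
        simp only [mem_insert, mem_singleton] at hr
        rcases hr with rfl | rfl | rfl | rfl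
        · exact mem_nbr.2 ⟨hu, hb'.2.symm⟩
        · exact mem_nbr.2 ⟨ha'.1, hab.symm⟩
        · exact mem_nbr.2 ⟨hc'.1, hcb.symm⟩
        · exact mem_nbr.2 ⟨hx, hyb.symm⟩
      · exact ⟨u, mem_insert_self _ _⟩
      · intro r hr
        simp only [mem_insert, mem_singleton] at hr
        rcases hr with rfl | rfl | rfl | rfl
        · exact ⟨a, by simp, c, by simp, hca.symm, ha'.2, hc'.2⟩
        · exact ⟨u, by simp, x, by simp, hxu.symm, ha'.2.symm, hxa.symm⟩
        · exact ⟨u, by simp, x, by simp, hxu.symm, hc'.2.symm, hxc.symm⟩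
        · exact ⟨a, by simp, c, by simp, hca.symm, hxa, hxc⟩
    rw [← hlink, Finset.card_insert_of_notMem, Finset.card_insert_of_notMem, Finset.card_pair]
    · intro h
      exact hux (h ▸ hc'.2)
    · simp only [mem_insert, mem_singleton, not_or]
      exact ⟨hca.symm, fun h => hux (h ▸ ha'.2)⟩
    · simp only [mem_insert, mem_singleton, not_or]
      exact ⟨ha'.2.ne, hc'.2.ne, hxu.symm⟩

end Pool.Agent.Helper61.FS
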