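import Pool.Agent.Helper51.CD.Defs2
import Pool.Agent.Helper51.CD.Cube

/-!
# Flag triangulations of the 2-sphere, definitions
-/

open Finset

namespace Pool.Agent.Helper61.FS

open Pool.Agent.Helper51.CD

variable {X : Type}

/-- The graph `G` is connected on `C`: a nonempty subset of `C` that contains the neighbours in `C`
of its elements is all of `C`. -/
def Cn (G : SimpleGraph X) (C : Finset X) : Prop :=
  ∀ S : Finset X, S ⊆ C → S.Nonempty → (∀ x ∈ S, ∀ y ∈ C, G.Adj x y → y ∈ S) → S = C

/-- The clique complex of `G` on `A` is a closed surface with Euler characteristic two: the link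
of each vertex `v ∈ A` is a cycle with at least four vertices, the graph is connected on `A`, and
the sum of the degrees is `6 * |A| - 12`. -/
structure Sph (G : SimpleGraph X) (A : Finset X) : Prop where
  two : ∀ v ∈ A, ∀ a ∈ nbr G A v, (nbr G (nbr G A v) a).card = 2
  big : ∀ v ∈ A, 4 ≤ (nbr G A v).card
  lconn : ∀ v ∈ A, Cn G (nbr G A v)
  conn : Cn G A
  deg : ∑ v ∈ A, (nbr G A v).card + 12 = 6 * A.card

theorem mem_nbr {G : SimpleGraph X} {A : Finset X} {u x : X} :
    x ∈ nbr G A u ↔ x ∈ A ∧ G.Adj u x := by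
  classical
  simp [nbr]

theorem mem_nbr2 {G : SimpleGraph X} {A : Finset X} {u v x : X} :
    x ∈ nbr2 G A u v ↔ x ∈ A ∧ G.Adj u x ∧ G.Adj v x := by
  classical
  simp [nbr2]

theorem mem_nn {G : SimpleGraph X} {A : Finset X} {u v x : X} :
    x ∈ nbr G (nbr G A u) v ↔ x ∈ A ∧ G.Adj u x ∧ G.Adj v x := by
  rw [mem_nbr, mem_nbr, and_assoc]

theorem nn_comm (G : SimpleGraph X) (A : Finset X) (u v : X) :
    nbr G (nbr G A u) v = nbr G (nbr G A v) u := by
  ext x
  rw [mem_nn, mem_nn, and_congr_right_iff]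
  intro _
  exact and_comm

end Pool.Agent.Helper61.FS
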