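import Pool.Agent.Helper61.FS.Defs

/-!
# Functions on the triangles of a flag sphere
-/

open Finset

namespace Pool.Agent.Helper61.FS

open Pool.Agent.Helper51.CD

variable {X : Type} [DecidableEq X]

theorem zmod2_eq_of_add {a b : ZMod 2} (h : a + b = 0) : a = b := by
  revert a b; decide

/-- A function on the triangles without jumps at the edges of `v` is constant on the star
of `v`. -/
theorem star_const {G : SimpleGraph X} {A : Finset X} (hS : Sph G A) (T : Finset X → ZMod 2)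
    {v : X} (hv : v ∈ A)
    (h : ∀ a ∈ nbr G A v, ∑ b ∈ nbr G (nbr G A v) a, T {v, a, b} = 0) :
    ∃ c, ∀ a ∈ nbr G A v, ∀ b ∈ nbr G (nbr G A v) a, T {v, a, b} = c := by
  have hne : (nbr G A v).Nonempty := by
    rw [← Finset.card_pos]
    have := hS.big v hv
    omega
  obtain ⟨a0, ha0⟩ := hne
  have hne2 : (nbr G (nbr G A v) a0).Nonempty := by
    rw [← Finset.card_pos, hS.two v hv a0 ha0]
    norm_num
  obtain ⟨b0, hb0⟩ := hne2
  have key : ∀ a ∈ nbr G A v, ∀ b ∈ nbr G (nbr G A v) a, ∀ b' ∈ nbr G (nbr G A v) a,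
      T {v, a, b} = T {v, a, b'} := by
    intro a ha b hb b' hb'
    by_cases hbb : b = b'
    · rw [hbb]
    · have h2 := hS.two v hv a ha
      have h3 : nbr G (nbr G A v) a = {b, b'} := by
        symm
        apply Finset.eq_of_subset_of_card_le
        · intro x hx
          rw [Finset.mem_insert, Finset.mem_singleton] at hx
          rcases hx with rfl | rfl
          · exact hb
          · exact hb'
        · rw [h2, Finset.card_pair hbb]
      have h4 := h a ha
      rw [h3, Finset.sum_pair hbb] at h4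
      exact zmod2_eq_of_add h4
  refine ⟨T {v, a0, b0}, ?_⟩
  have hSall : (nbr G A v).filter (fun a => ∀ b ∈ nbr G (nbr G A v) a,
      T {v, a, b} = T {v, a0, b0}) = nbr G A v := by
    apply hS.lconn v hv _ (Finset.filter_subset _ _)
    · exact ⟨a0, Finset.mem_filter.2 ⟨ha0, fun b hb => key a0 ha0 b hb b0 hb0⟩⟩
    · intro x hx y hy hxy
      rw [Finset.mem_filter] at hx ⊢
      refine ⟨hy, fun b hb => ?_⟩
      have hx1 : x ∈ nbr G (nbr G A v) y := by
        rw [mem_nbr]; exact ⟨hx.1, hxy.symm⟩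
      have hy1 : y ∈ nbr G (nbr G A v) x := by
        rw [mem_nbr]; exact ⟨hy, hxy⟩
      rw [key y hy b hb x hx1, ← hx.2 y hy1]
      congr 1
      rw [Finset.pair_comm]
  intro a ha b hb
  rw [← hSall, Finset.mem_filter] at ha
  exact ha.2 b hb

/-- The constants of adjacent vertices agree. -/
theorem const_eq {G : SimpleGraph X} {A : Finset X} (hS : Sph G A) (T : Finset X → ZMod 2)
    {v w : X} (hv : v ∈ A) (hw : w ∈ A) (hvw : G.Adj v w) {c d : ZMod 2}
    (hc : ∀ a ∈ nbr G A v, ∀ b ∈ nbr G (nbr G A v) a, T {v, a, b} = c)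
    (hd : ∀ a ∈ nbr G A w, ∀ b ∈ nbr G (nbr G A w) a, T {w, a, b} = d) : c = d := by
  have hwv : w ∈ nbr G A v := mem_nbr.2 ⟨hw, hvw⟩
  have hvw' : v ∈ nbr G A w := mem_nbr.2 ⟨hv, hvw.symm⟩
  have hne2 : (nbr G (nbr G A v) w).Nonempty := by
    rw [← Finset.card_pos, hS.two v hv w hwv]
    norm_num
  obtain ⟨b, hb⟩ := hne2
  have h1 := hc w hwv b hb
  have h2 := hd v hvw' b (by rw [nn_comm]; exact hb)
  rw [← h1, ← h2]
  congr 1
  rw [Finset.insert_comm]

/-- A function on the triangles without jumps is constant. -/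
theorem all_const {G : SimpleGraph X} {A : Finset X} (hS : Sph G A) (T : Finset X → ZMod 2)
    (h : ∀ v ∈ A, ∀ a ∈ nbr G A v, ∑ b ∈ nbr G (nbr G A v) a, T {v, a, b} = 0) :
    ∃ c, ∀ v ∈ A, ∀ a ∈ nbr G A v, ∀ b ∈ nbr G (nbr G A v) a, T {v, a, b} = c := by
  have hA : A.Nonempty := by
    rw [← Finset.card_pos]
    have := hS.deg
    omega
  obtain ⟨v0, hv0⟩ := hA
  obtain ⟨c, hc⟩ := star_const hS T hv0 (h v0 hv0)
  refine ⟨c, ?_⟩
  have hall : A.filter (fun v => ∀ a ∈ nbr G A v, ∀ b ∈ nbr G (nbr G A v) a,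
      T {v, a, b} = c) = A := by
    apply hS.conn _ (Finset.filter_subset _ _) ⟨v0, Finset.mem_filter.2 ⟨hv0, hc⟩⟩
    intro x hx y hy hxy
    rw [Finset.mem_filter] at hx ⊢
    refine ⟨hy, ?_⟩
    obtain ⟨d, hd⟩ := star_const hS T hy (h y hy)
    have := const_eq hS T hx.1 hy hxy hx.2 hd
    rw [this]
    exact hd
  intro v hv
  rw [← hall, Finset.mem_filter] at hv
  exact hv.2

end Pool.Agent.Helper61.FS
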