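import Pool.Agent.Helper61.FS.Cross

/-!
# Suspensions are tame
-/

open Finset

namespace Pool.Agent.Helper61.FS

open Pool.Agent.Helper51.CD Pool.Agent.Helper51.CD.Cube

variable {X : Type} [DecidableEq X]

theorem tame_susp {G : SimpleGraph X} {u x : X} (hux : u ≠ x) (hn : ¬ G.Adj u x) (k : ℕ) :
    ∀ B : Finset X, B.card = k → (∀ b ∈ B, G.Adj u b ∧ G.Adj x b) →
      TameK G (cliquesIn G (insert u (insert x B)) : Set (Finset X)) := by
  induction k using Nat.strong_induction_on with
  | _ k ih =>
  intro B hk hB
  by_cases hBe : B = ∅
  · subst hBe
    have h : ((cliquesIn G (insert u (insert x ∅)) : Finset (Finset X)) : Set (Finset X)) =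
        {∅, {u}, {x}} := by
      ext τ
      rw [Finset.mem_coe, mem_cliquesIn]
      simp only [insert_empty_eq, Set.mem_insert_iff, Set.mem_singleton_iff]
      constructor
      · rintro ⟨h1, h2⟩
        by_cases hu : u ∈ τ
        · right; left
          apply Finset.eq_singleton_iff_unique_mem.2
          refine ⟨hu, fun y hy => ?_⟩
          have h3 := h1 hy
          rw [mem_insert, mem_singleton] at h3
          rcases h3 with rfl | rfl
          · rfl
          · exact absurd (h2 (by exact_mod_cast hu) (by exact_mod_cast hy) hux) hn
        · by_cases hx : x ∈ τ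
          · right; right
            apply Finset.eq_singleton_iff_unique_mem.2
            refine ⟨hx, fun y hy => ?_⟩
            have h3 := h1 hy
            rw [mem_insert, mem_singleton] at h3
            rcases h3 with rfl | rfl
            · exact absurd hy hu
            · rfl
          · left
            rw [Finset.eq_empty_iff_forall_notMem]
            intro y hy
            have h3 := h1 hy
            rw [mem_insert, mem_singleton] at h3
            rcases h3 with rfl | rfl
            · exact hu hy
            · exact hx hy
      · rintro (rfl | rfl | rfl)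
        · exact ⟨Finset.empty_subset _, by simp⟩
        · exact ⟨by simp, by simp⟩
        · exact ⟨by simp, by simp⟩
    rw [h]
    exact TameK.pair G u x hux hn
  · obtain ⟨b, hb⟩ := Finset.nonempty_iff_ne_empty.2 hBe
    set B' := B.erase b with hB'
    have hBB : B = insert b B' := (Finset.insert_erase hb).symm
    have hbB' : b ∉ B' := Finset.notMem_erase b B
    have hcard : B'.card < k := by
      rw [← hk, hB']
      exact Finset.card_erase_lt_of_mem hb
    have hsub : nbr G B' b ⊆ B' := fun y hy => (mem_nbr.1 hy).1
    have h1 := ih B'.card hcard B' rfl (fun y hy => hB y (Finset.mem_of_mem_erase hy))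
    have h2 := ih (nbr G B' b).card (lt_of_le_of_lt (Finset.card_le_card hsub) hcard)
      (nbr G B' b) rfl (fun y hy => hB y (Finset.mem_of_mem_erase (hsub hy)))
    have hub := hB b hb
    have h3 : TameK G {τ | τ.erase b ∈ (cliquesIn G (insert u (insert x (nbr G B' b))) :
        Set (Finset X))} := by
      apply TameK.cone G _ b _ h2
      intro τ hτ
      rw [Finset.mem_coe, mem_cliquesIn] at hτ
      have h4 : ∀ y ∈ τ, G.Adj b y := by
        intro y hy
        have h5 := hτ.1 hy
        rw [mem_insert, mem_insert] at h5
        rcases h5 with rfl | rfl | h5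
        · exact hub.1.symm
        · exact hub.2.symm
        · exact (mem_nbr.1 h5).2
      exact ⟨fun h => (h4 b h).ne rfl, h4⟩
    have hU : ((cliquesIn G (insert u (insert x B)) : Finset (Finset X)) : Set (Finset X)) =
        (cliquesIn G (insert u (insert x B')) : Set (Finset X)) ∪
        {τ | τ.erase b ∈ (cliquesIn G (insert u (insert x (nbr G B' b))) : Set (Finset X))} := by
      ext τ
      simp only [Set.mem_union, Finset.mem_coe, mem_cliquesIn, Set.mem_setOf_eq]
      constructor
      · rintro ⟨h5, h6⟩
        by_cases hbτ : b ∈ τ
        · right
          refine ⟨?_, h6.subset (by exact_mod_cast Finset.erase_subset _ _)⟩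
          intro y hy
          rw [mem_erase] at hy
          have h7 := h5 hy.2
          rw [mem_insert, mem_insert] at h7 ⊢
          rcases h7 with h7 | h7 | h7
          · exact Or.inl h7
          · exact Or.inr (Or.inl h7)
          · right; right
            rw [mem_nbr]
            exact ⟨mem_erase.2 ⟨hy.1, h7⟩,
              h6 (by exact_mod_cast hbτ) (by exact_mod_cast hy.2) hy.1.symm⟩
        · left
          refine ⟨?_, h6⟩
          intro y hy
          have h7 := h5 hy
          rw [mem_insert, mem_insert] at h7 ⊢
          rcases h7 with h7 | h7 | h7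
          · exact Or.inl h7
          · exact Or.inr (Or.inl h7)
          · right; right
            exact mem_erase.2 ⟨fun h => hbτ (h ▸ hy), h7⟩
      · rintro (⟨h5, h6⟩ | ⟨h5, h6⟩)
        · refine ⟨?_, h6⟩
          intro y hy
          have h7 := h5 hy
          rw [mem_insert, mem_insert] at h7 ⊢
          rcases h7 with h7 | h7 | h7
          · exact Or.inl h7
          · exact Or.inr (Or.inl h7)
          · exact Or.inr (Or.inr (Finset.mem_of_mem_erase h7))
        · have h8 : ∀ y ∈ τ, y ≠ b → y ∈ insert u (insert x (nbr G B' b)) :=
            fun y hy hyb => h5 (mem_erase.2 ⟨hyb, hy⟩)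
          have h9 : ∀ y ∈ τ, y ≠ b → G.Adj b y := by
            intro y hy hyb
            have h10 := h8 y hy hyb
            rw [mem_insert, mem_insert] at h10
            rcases h10 with rfl | rfl | h10
            · exact hub.1.symm
            · exact hub.2.symm
            · exact (mem_nbr.1 h10).2
          constructor
          · intro y hy
            by_cases hyb : y = b
            · subst hyb
              exact mem_insert_of_mem (mem_insert_of_mem hb)
            · have h10 := h8 y hy hyb
              rw [mem_insert, mem_insert] at h10 ⊢
              rcases h10 with h10 | h10 | h10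
              · exact Or.inl h10
              · exact Or.inr (Or.inl h10)
              · exact Or.inr (Or.inr (Finset.mem_of_mem_erase (hsub h10)))
          · intro y hy y' hy' hyy
            have hy : y ∈ τ := by exact_mod_cast hy
            have hy' : y' ∈ τ := by exact_mod_cast hy'
            by_cases hyb : y = b
            · subst hyb
              exact h9 y' hy' hyy.symm
            · by_cases hyb' : y' = b
              · subst hyb'
                exact (h9 y hy hyb).symm
              · exact h6 (by exact_mod_cast mem_erase.2 ⟨hyb, hy⟩)
                  (by exact_mod_cast mem_erase.2 ⟨hyb', hy'⟩) hyy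
    have hI : (cliquesIn G (insert u (insert x B')) : Set (Finset X)) ∩
        {τ | τ.erase b ∈ (cliquesIn G (insert u (insert x (nbr G B' b))) : Set (Finset X))} =
        (cliquesIn G (insert u (insert x (nbr G B' b))) : Set (Finset X)) := by
      have hbn : b ∉ insert u (insert x B') := by
        rw [mem_insert, mem_insert]
        rintro (h | h | h)
        · exact hub.1.ne h.symm
        · exact hub.2.ne h.symm
        · exact hbB' h
      ext τ
      simp only [Set.mem_inter_iff, Finset.mem_coe, mem_cliquesIn, Set.mem_setOf_eq]
      constructor
      · rintro ⟨⟨h5, h6⟩, h7, h8⟩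
        have hbτ : b ∉ τ := fun h => hbn (h5 h)
        rw [Finset.erase_eq_of_notMem hbτ] at h7
        exact ⟨h7, h6⟩
      · rintro ⟨h5, h6⟩
        have h7 : τ ⊆ insert u (insert x B') :=
          h5.trans (Finset.insert_subset_insert _ (Finset.insert_subset_insert _ hsub))
        have hbτ : b ∉ τ := fun h => hbn (h7 h)
        rw [Finset.erase_eq_of_notMem hbτ]
        exact ⟨⟨h7, h6⟩, h5, h6⟩
    rw [hU]
    apply TameK.union G _ _ h1 h3
    rw [hI]
    exact h2

theorem tame_of_susp {G : SimpleGraph X} {A : Finset X} (h : Susp G A) :
    TameK G (cliquesIn G A : Set (Finset X)) := by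
  obtain ⟨u, x, B, h1, h2, h3, rfl⟩ := h
  exact tame_susp h1 h2 _ B rfl h3

end Pool.Agent.Helper61.FS
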